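import Pool.Agent.Y843.AQ.Sh

/-! The number of simultaneous prime values of almost all systems `a i ± F i (n)`, with signs. -/

set_option autoImplicit false

namespace Pool.Agent.Y843.AQ
open Finset Polynomial
open Pool.Agent.H373R2.T7

lemma Td_sq' {r : ℕ} (F : Fin r → ℤ[X]) (c : ℕ) (hc1 : 1 ≤ c) (hρ : ∀ i k p, p.Prime → rho (F i) k p ≤ c)
    (i : Fin r) (z y A : ℕ) (hz : 1 ≤ z) (hA : y ^ 2 * z ≤ A) :
    ∑ k ∈ Icc 1 A, Td (F i) z y k ^ 2 ≤ (2 * (c : ℝ) ^ 2 / z) * A := by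
  rw [range_shift (fun k => Td (F i) z y k ^ 2)]
  have hz0 : (0 : ℝ) < z := by exact_mod_cast hz
  have hP : ∀ p ∈ Pz z y, p.Prime := fun p hp => ((mem_Pz z y p).1 hp).2
  have hper : ∀ p n : ℕ, (rho (F i) (n + 1) p : ℝ) - 1 = (rho (F i) (n % p + 1) p : ℝ) - 1 := by
    intro p n
    rw [rho_per (F i) (n + 1) p, rho_per (F i) (n % p + 1) p, Nat.mod_add_mod]
  have hmean : ∀ p ∈ Pz z y, ∑ m ∈ range p, ((rho (F i) (m + 1) p : ℝ) - 1) = 0 := by
    intro p hp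
    have h1 := sum_res p (hP p hp).pos (fun k => (rho (F i) k p : ℝ) - 1) (fun n => by rw [rho_per (F i) n p]) 1 1
      (Nat.coprime_one_right _)
    have h2 : ∑ m ∈ range p, ((rho (F i) (m + 1) p : ℝ) - 1) = ∑ m ∈ range p, ((rho (F i) (1 + 1 * m) p : ℝ) - 1) := by
      apply sum_congr rfl
      intro m _
      rw [one_mul, add_comm]
    rw [h2, h1, sum_sub_distrib, rho_mean (F i) p (hP p hp).pos, sum_const, card_range, nsmul_eq_mul, mul_one, sub_self]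
  have hcb : ∀ p ∈ Pz z y, ∀ n, |(rho (F i) (n + 1) p : ℝ) - 1| ≤ c := by
    intro p hp n
    have h1 := hρ i (n + 1) p (hP p hp)
    have h2 : (rho (F i) (n + 1) p : ℝ) ≤ c := by exact_mod_cast h1
    have h3 : (0 : ℝ) ≤ rho (F i) (n + 1) p := Nat.cast_nonneg _
    have h4 : (1 : ℝ) ≤ c := by
      exact_mod_cast hc1
    rw [abs_le]
    constructor <;> linarith
  have h1 := var_gen (Pz z y) hP (fun p n => (rho (F i) (n + 1) p : ℝ) - 1) hper hmean (c) hcb A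
  unfold Td
  refine h1.trans ?_
  have h2 : ∑ p ∈ Pz z y, (1 : ℝ) / (p : ℝ) ^ 2 ≤ (1 : ℝ) / z := inv_sq_sum z y hz
  have h3 : ((Pz z y).card : ℝ) ^ 2 ≤ (y : ℝ) ^ 2 := pow_le_pow_left₀ (Nat.cast_nonneg _) (by exact_mod_cast Pz_card z y) 2
  have h4 : (y : ℝ) ^ 2 ≤ A / z := by
    rw [le_div_iff₀ hz0]
    exact_mod_cast hA
  have hc2 : (0 : ℝ) ≤ (c : ℝ) ^ 2 := by positivity
  calc (A : ℝ) * (c : ℝ) ^ 2 * ∑ p ∈ Pz z y, 1 / (p : ℝ) ^ 2 + (c : ℝ) ^ 2 * ((Pz z y).card : ℝ) ^ 2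
      ≤ A * (c : ℝ) ^ 2 * (1 / z) + (c : ℝ) ^ 2 * (A / z) :=
        add_le_add (mul_le_mul_of_nonneg_left h2 (by positivity)) (mul_le_mul_of_nonneg_left (h3.trans h4) hc2)
    _ = _ := by ring

open Classical in
/-- most vectors are good -/
theorem bad_few' {r : ℕ} (F : Fin r → ℤ[X]) (c : ℕ) (hc1 : 1 ≤ c) (hρ : ∀ i k p, p.Prime → rho (F i) k p ≤ c)
    (A : Fin r → ℕ) (z y : ℕ) (hz : 1 ≤ z) (hy : 1 ≤ y) (hA : ∀ i, y ^ 2 * z ≤ A i) :
    (((bx A).filter (fun a => ¬ Gd F z y a)).card : ℝ) ≤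
      ((r * (2 * (c : ℝ) ^ 2) + 4 * r ^ 2) / z) * ∏ l, (A l : ℝ) := by
  have hAy : ∀ i, y ≤ A i := by
    intro i
    refine le_trans ?_ (hA i)
    have : y ^ 2 * z = y * (y * z) := by ring
    rw [this]
    exact Nat.le_mul_of_pos_right _ (Nat.mul_pos hy hz)
  have hprod : (0 : ℝ) ≤ ∏ l, (A l : ℝ) := prod_nonneg fun _ _ => Nat.cast_nonneg _
  have hz0 : (0 : ℝ) < z := by exact_mod_cast hz
  have hsub : (bx A).filter (fun a => ¬ Gd F z y a) ⊆
      (univ.biUnion fun i : Fin r => (bx A).filter (fun a => 1 < Td (F i) z y (a i) ^ 2)) ∪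
      (univ.biUnion fun i : Fin r => (univ.erase i).biUnion fun j => (bx A).filter (fun a => 1 < Od (F i) (F j) z y (a i) (a j))) := by
    intro a ha
    rw [mem_filter] at ha
    obtain ⟨ha1, ha2⟩ := ha
    unfold Gd at ha2
    rw [not_and_or] at ha2
    rcases ha2 with h | h
    · push Not at h
      obtain ⟨i, hi⟩ := h
      apply mem_union_left
      rw [mem_biUnion]
      refine ⟨i, mem_univ _, mem_filter.2 ⟨ha1, ?_⟩⟩
      nlinarith
    · push Not at h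
      obtain ⟨i, j, hij, hO⟩ := h
      apply mem_union_right
      rw [mem_biUnion]
      refine ⟨i, mem_univ _, ?_⟩
      rw [mem_biUnion]
      exact ⟨j, mem_erase.2 ⟨fun h' => hij h'.symm, mem_univ _⟩, mem_filter.2 ⟨ha1, hO⟩⟩
  have h1 : ∀ i : Fin r, (((bx A).filter (fun a => 1 < Td (F i) z y (a i) ^ 2)).card : ℝ) ≤
      (2 * (c : ℝ) ^ 2 / z) * ∏ l, (A l : ℝ) := by
    intro i
    apply markov (bx A) (fun a => Td (F i) z y (a i) ^ 2) (fun a _ => sq_nonneg _) 1 _ one_pos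
    rw [one_mul]
    exact sum_one A i (fun k => Td (F i) z y k ^ 2) (fun _ => sq_nonneg _) _ (Td_sq' F c hc1 hρ i z y (A i) hz (hA i))
  have h2 : ∀ i j : Fin r, i ≠ j → (((bx A).filter (fun a => 1 < Od (F i) (F j) z y (a i) (a j))).card : ℝ) ≤
      (4 / z) * ∏ l, (A l : ℝ) := by
    intro i j hij
    apply markov (bx A) (fun a => Od (F i) (F j) z y (a i) (a j)) (fun a _ => ?_) 1 _ one_pos
    · rw [one_mul]
      exact Od_sum F A i j hij z y hz hAy
    · unfold Od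
      exact sum_nonneg fun _ _ => by positivity
  have h3 : (((bx A).filter (fun a => ¬ Gd F z y a)).card : ℝ) ≤
      ∑ i : Fin r, (((bx A).filter (fun a => 1 < Td (F i) z y (a i) ^ 2)).card : ℝ) +
      ∑ i : Fin r, ∑ j ∈ univ.erase i, (((bx A).filter (fun a => 1 < Od (F i) (F j) z y (a i) (a j))).card : ℝ) := by
    have h4 := (card_le_card hsub).trans (card_union_le _ _)
    have h5 := card_biUnion_le (s := univ) (t := fun i : Fin r => (bx A).filter (fun a => 1 < Td (F i) z y (a i) ^ 2))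
    have h6 := card_biUnion_le (s := univ) (t := fun i : Fin r => (univ.erase i).biUnion fun j =>
      (bx A).filter (fun a => 1 < Od (F i) (F j) z y (a i) (a j)))
    have h7 : ∑ i : Fin r, ((univ.erase i).biUnion fun j => (bx A).filter (fun a => 1 < Od (F i) (F j) z y (a i) (a j))).card ≤
        ∑ i : Fin r, ∑ j ∈ univ.erase i, ((bx A).filter (fun a => 1 < Od (F i) (F j) z y (a i) (a j))).card :=
      sum_le_sum fun i _ => card_biUnion_le
    have h8 : ((bx A).filter (fun a => ¬ Gd F z y a)).card ≤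
      ∑ i : Fin r, ((bx A).filter (fun a => 1 < Td (F i) z y (a i) ^ 2)).card +
      ∑ i : Fin r, ∑ j ∈ univ.erase i, ((bx A).filter (fun a => 1 < Od (F i) (F j) z y (a i) (a j))).card := by omega
    exact_mod_cast h8
  refine h3.trans ?_
  have h4 : ∑ i : Fin r, (((bx A).filter (fun a => 1 < Td (F i) z y (a i) ^ 2)).card : ℝ) ≤
      r * ((2 * (c : ℝ) ^ 2 / z) * ∏ l, (A l : ℝ)) := by
    refine (sum_le_sum fun i _ => h1 i).trans (le_of_eq ?_)
    rw [sum_const, card_univ, Fintype.card_fin, nsmul_eq_mul]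
  have h5 : ∑ i : Fin r, ∑ j ∈ univ.erase i, (((bx A).filter (fun a => 1 < Od (F i) (F j) z y (a i) (a j))).card : ℝ) ≤
      r * (r * ((4 / z) * ∏ l, (A l : ℝ))) := by
    calc _ ≤ ∑ i : Fin r, ∑ _j ∈ univ.erase i, ((4 / z) * ∏ l, (A l : ℝ)) :=
          sum_le_sum fun i _ => sum_le_sum fun j hj => h2 i j (fun h' => (mem_erase.1 hj).1 h'.symm)
      _ ≤ ∑ _i : Fin r, (r * ((4 / z) * ∏ l, (A l : ℝ))) := by
          apply sum_le_sum
          intro i _
          rw [sum_const, nsmul_eq_mul]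
          apply mul_le_mul_of_nonneg_right _ (by positivity)
          have : (univ.erase i).card ≤ r := (card_erase_le).trans (by simp)
          exact_mod_cast this
      _ = _ := by rw [sum_const, card_univ, Fintype.card_fin, nsmul_eq_mul]
  refine (add_le_add h4 h5).trans (le_of_eq ?_)
  ring

/-- the signed polynomials -/
noncomputable def GG {r : ℕ} (F : Fin r → ℤ[X]) (σ : Fin r → ℤ) (i : Fin r) : ℤ[X] := C (σ i) * F i

lemma GG_eval {r : ℕ} (F : Fin r → ℤ[X]) (σ : Fin r → ℤ) (i : Fin r) (n : ℤ) :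
    (GG F σ i).eval n = σ i * (F i).eval n := by
  unfold GG
  rw [eval_mul, eval_C]

lemma GG_sys {r : ℕ} (F : Fin r → ℤ[X]) (σ : Fin r → ℤ) (a : Fin r → ℕ) :
    sysQ (GG F σ) (s1 r) a = sysQ F σ a := by
  funext p n
  unfold sysQ vl s1
  simp only [GG_eval, one_mul]

lemma Sg_ne' {r : ℕ} (F : Fin r → ℤ[X]) (hd : ∀ i, 1 ≤ (F i).natDegree) (hl : ∀ i, 0 < (F i).leadingCoeff)
    (σ : Fin r → ℤ) (hσ : ∀ i, σ i = 1 ∨ σ i = -1)
    (k : Fin r → ℕ) (z : ℕ) (hk : ∀ p : ℕ, p.Prime → ∃ n : ℕ, ¬ sysQ F σ k p n) : Sg (GG F σ) z k ≠ 0 := by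
  classical
  unfold Sg
  have := Vz_pos z
  apply mul_ne_zero (by positivity)
  rw [prod_ne_zero_iff]
  intro p hp
  have hpp := (mem_pz.1 hp).2
  have hp0 : (0 : ℝ) < p := by exact_mod_cast hpp.pos
  rw [GG_sys]
  have h6 : nuB (sysQ F σ k) p < p := by
    have h5 := nuB_le (sysQ F σ k) p
    rcases Nat.lt_or_ge (nuB (sysQ F σ k) p) p with h6 | h6
    · exact h6
    · exfalso
      obtain ⟨n, hn⟩ := hk p hpp
      apply hn
      have h7 : ((range p).filter (fun n : ℕ => sysQ F σ k p n)) = range p := by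
        apply eq_of_subset_of_card_le (filter_subset _ _)
        rw [card_range]
        unfold nuB at h6
        exact h6
      have h8 : n % p ∈ (range p).filter (fun n : ℕ => sysQ F σ k p n) := by
        rw [h7, mem_range]
        exact Nat.mod_lt _ hpp.pos
      have h9 := (mem_filter.1 h8).2
      rwa [← (sysQ_per F hd hl σ hσ k).per p n] at h9
  have h7 : (nuB (sysQ F σ k) p : ℝ) / p < 1 := by
    rw [div_lt_one hp0]
    exact_mod_cast h6
  linarith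

lemma GG_rho {r : ℕ} (F : Fin r → ℤ[X]) (hd : ∀ i, 1 ≤ (F i).natDegree) (hl : ∀ i, 0 < (F i).leadingCoeff)
    (σ : Fin r → ℤ) (hσ : ∀ i, σ i = 1 ∨ σ i = -1) (i : Fin r) (k p : ℕ) (hp : p.Prime) :
    rho (GG F σ i) k p ≤ sysC F := by
  classical
  have h1 := (sysQ_per F hd hl σ hσ (fun _ => k)).few p hp
  refine le_trans ?_ h1
  unfold rho nuB
  apply card_le_card
  intro n hn
  rw [mem_filter] at hn ⊢
  refine ⟨hn.1, i, ?_⟩
  have h2 := hn.2
  rw [GG_eval] at h2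
  unfold vl
  rwa [add_comm]

open Classical in
theorem sg_low {r : ℕ} (F : Fin r → ℤ[X]) (hd : ∀ i, 1 ≤ (F i).natDegree)
    (hl : ∀ i, 0 < (F i).leadingCoeff) (σ : Fin r → ℤ) (hσ : ∀ i, σ i = 1 ∨ σ i = -1) : ∃ c1 : ℝ, 0 < c1 ∧ ∀ (B : ℕ), 1 ≤ B → ∀ (U : ℕ),
    ∃ N0 : ℕ, ∀ x : ℕ, N0 ≤ x → ∀ A : Fin r → ℕ,
      (∀ i, A i ≤ B * x ^ (F i).natDegree ∧ x ^ (F i).natDegree ≤ B * A i) →
      ∃ E : Finset (Fin r → ℕ), (E.card : ℝ) ≤ (∏ i, (A i : ℝ)) / Real.log x ^ U ∧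
        ∀ k ∈ bx A, k ∉ E → (∀ n ∈ Icc 1 x, ∀ i, 1 ≤ vl F σ k i n) →
        (∀ p : ℕ, p.Prime → ∃ n : ℕ, ¬ sysQ F σ k p n) →
        c1 * x * ∏ p ∈ Pz 0 ⌊(x : ℝ) ^ (1 / 4 : ℝ)⌋₊, (1 - (nuB (sysQ F σ k) p : ℝ) / p) ≤ prCount F σ k x := by
  obtain ⟨K, hK, hKd⟩ := dens_up (GG F σ)
  set dd : ℝ := ∏ i, ((F i).natDegree : ℝ) with hdd
  have hdd0 : 0 < dd := prod_pos fun i _ => by exact_mod_cast (hd i)
  set c1 : ℝ := 1 / (2 * dd * K * 8 ^ r) with hc1
  have hc10 : 0 < c1 := by positivity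
  refine ⟨c1, hc10, fun B hB U => ?_⟩
  obtain ⟨B0, h0⟩ := sys_unweighted F hd hl σ hσ B hB (U + 1) 0 (1 / 2) (by norm_num) (by norm_num)
  set E : ℕ := B0 + U + 3 with hE
  obtain ⟨N1, h1⟩ := h0 E
  obtain ⟨N2, h2⟩ := z_ok (B0 + U + 2) E (by omega)
  set K2 : ℝ := r * (2 * (sysC F : ℝ) ^ 2) + 4 * r ^ 2 with hK2
  have hK20 : 0 ≤ K2 := by positivity
  obtain ⟨N5, h6⟩ := ev_L' (2 + K2)
  obtain ⟨N6, h7⟩ := ev_pow E (3 + B) (by positivity)
  refine ⟨max (max N1 N2) (max (max N5 N6) 1), fun x hx A hA => ?_⟩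
  have hxa := (le_max_left _ _).trans hx
  have hxb := (le_max_right _ _).trans hx
  have hx1 : N1 ≤ x := (le_max_left _ _).trans hxa
  have hx2 : N2 ≤ x := (le_max_right _ _).trans hxa
  have hx5 : N5 ≤ x := (le_max_left _ _).trans ((le_max_left _ _).trans hxb)
  have hx6 : N6 ≤ x := (le_max_right _ _).trans ((le_max_left _ _).trans hxb)
  have hx7 : 1 ≤ x := (le_max_right _ _).trans hxb
  have hx0 : (0 : ℝ) < x := by exact_mod_cast hx7
  obtain ⟨z1, z2⟩ := h2 x hx2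
  have hL := h6 x hx5
  have ht := h7 x hx6
  set L := Real.log (x : ℝ) with hLd
  set z : ℕ := ⌊L ^ E⌋₊ with hz
  set t : ℝ := (x : ℝ) ^ (1 / 8 : ℝ) with htd
  have hL2 : 2 ≤ L := by linarith
  have hL0 : 0 < L := by linarith
  have hL1 : 1 ≤ L := by linarith
  have hLE : 1 ≤ L ^ E := one_le_pow₀ hL1
  have hBr : (1 : ℝ) ≤ B := by exact_mod_cast hB
  have ht1 : L ^ E ≤ t := by nlinarith
  have ht2 : 3 + (B : ℝ) ≤ t := by nlinarith
  have ht0 : 0 < t := by linarith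
  have hx8 : (x : ℝ) = t ^ 8 := by
    rw [htd, ← Real.rpow_natCast, ← Real.rpow_mul hx0.le]
    norm_num
  have hx4' : (x : ℝ) ^ (1 / 4 : ℝ) = t ^ 2 := by
    rw [htd, ← Real.rpow_natCast, ← Real.rpow_mul hx0.le]
    norm_num
  set y : ℕ := ⌊(x : ℝ) ^ (1 / 4 : ℝ)⌋₊ with hyd
  have hy : (y : ℝ) ≤ t ^ 2 := by
    rw [← hx4']
    exact Nat.floor_le (by positivity)
  have hyt : t ≤ y := by
    have h8 := Nat.sub_one_lt_floor ((x : ℝ) ^ (1 / 4 : ℝ))
    rw [← hyd, hx4'] at h8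
    nlinarith
  have hy3 : 3 ≤ y := by
    have : (3 : ℝ) ≤ y := by linarith
    exact_mod_cast this
  have hzL : L ^ (B0 + U + 2) ≤ z := z1
  have hz0 : (1 : ℝ) ≤ z := (one_le_pow₀ hL1).trans hzL
  have hz1 : 1 ≤ z := by exact_mod_cast hz0
  have hzy : z ≤ y := by
    have : (z : ℝ) ≤ y := z2.trans (ht1.trans hyt)
    exact_mod_cast this
  have hly : L / 8 ≤ Real.log y := by
    have h8 := Real.log_le_log ht0 hyt
    rw [htd, Real.log_rpow hx0] at h8
    linarith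
  have hAy : ∀ i, y ^ 2 * z ≤ A i := by
    intro i
    have h8 : (x : ℝ) ≤ B * A i := by
      have h9 : x ≤ B * A i := by
        refine le_trans ?_ (hA i).2
        exact Nat.le_self_pow (by have := hd i; omega) x
      exact_mod_cast h9
    have h9 : ((y ^ 2 * z : ℕ) : ℝ) * B ≤ x := by
      push_cast
      calc (y : ℝ) ^ 2 * z * B ≤ (t ^ 2) ^ 2 * t * t := by
            apply mul_le_mul _ (by linarith) (by positivity) (by positivity)
            apply mul_le_mul _ (z2.trans ht1) (by positivity) (by positivity)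
            exact pow_le_pow_left₀ (Nat.cast_nonneg _) hy 2
        _ = t ^ 6 := by ring
        _ ≤ t ^ 8 := pow_le_pow_right₀ (by linarith) (by norm_num)
        _ = x := hx8.symm
    have h10 : ((y ^ 2 * z : ℕ) : ℝ) * B ≤ A i * B := by linarith
    have h11 : ((y ^ 2 * z : ℕ) : ℝ) ≤ A i := le_of_mul_le_mul_right h10 (by linarith)
    exact_mod_cast h11
  have hprod : (0 : ℝ) ≤ ∏ l, (A l : ℝ) := prod_nonneg fun _ _ => Nat.cast_nonneg _
  have hzB0 : L ^ B0 ≤ (z : ℝ) := (pow_le_pow_right₀ hL1 (by omega)).trans hzL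
  obtain ⟨S0, hS0, hS1⟩ := h1 x hx1 A hA z hzB0 z2
  have hbad := bad_few' (GG F σ) (sysC F) (sysC_pos F) (GG_rho F hd hl σ hσ) A z y hz1 (by omega) hAy
  -- the good ones
  have hgood : ∀ k ∈ bx A, k ∉ S0 → Gd (GG F σ) z y k → (∀ n ∈ Icc 1 x, ∀ i, 1 ≤ vl F σ k i n) ∧ (∀ p : ℕ, p.Prime → ∃ n : ℕ, ¬ sysQ F σ k p n) →
      c1 * x * ∏ p ∈ Pz 0 y, (1 - (nuB (sysQ F σ k) p : ℝ) / p) ≤ (prCount F σ k x : ℝ) := by
    intro k hk hkS hkG hkp
    have hk1 : ∀ i, 1 ≤ k i := fun i => (mem_Icc.1 (Fintype.mem_piFinset.1 hk i)).1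
    have hSg := Sg_ne' F hd hl σ hσ k z hkp.2
    have hSg0 : 0 < Sg (GG F σ) z k := lt_of_le_of_ne (Sg_nonneg (GG F σ) z k) (Ne.symm hSg)
    have hpos : |(x : ℝ) - posCount F σ k x| ≤ ((0 : ℕ) : ℝ) := by
      have hp1 : posCount F σ k x = x := by
        unfold posCount
        rw [filter_true_of_mem hkp.1, Nat.card_Icc, Nat.add_sub_cancel]
      rw [hp1, sub_self, abs_zero]
      exact Nat.cast_nonneg _
    have hSgE : ((Vz z)⁻¹) ^ r * (∏ p ∈ pz z, (1 - (nuB (sysQ F σ k) p : ℝ) / p)) = Sg (GG F σ) z k := by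
      unfold Sg
      rw [GG_sys]
    have h8 := (hS1 k hk hkS x hpos le_rfl).2 (by rw [hSgE]; exact hSg) (by linarith)
    have h9 := (abs_le.1 h8).1
    have hmain : 1 / 2 * (Sg (GG F σ) z k * x / (dd * L ^ r)) ≤ (prCount F σ k x : ℝ) := by
      rw [hSgE] at h9
      have e2 : (∏ i, ((F i).natDegree : ℝ)) * Real.log x ^ r = dd * L ^ r := rfl
      rw [e2] at h9
      linarith
    refine le_trans ?_ hmain
    have h10 := hKd k z y hzy hy3 hkG
    rw [GG_sys] at h10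
    have h11 : Sg (GG F σ) z k / Real.log y ^ r ≤ Sg (GG F σ) z k * 8 ^ r / L ^ r := by
      have h12 : (L / 8) ^ r ≤ Real.log y ^ r := pow_le_pow_left₀ (by positivity) hly _
      calc Sg (GG F σ) z k / Real.log y ^ r ≤ Sg (GG F σ) z k / (L / 8) ^ r :=
            div_le_div_of_nonneg_left hSg0.le (by positivity) h12
        _ = _ := by rw [div_pow]; field_simp
    calc c1 * x * ∏ p ∈ Pz 0 y, (1 - (nuB (sysQ F σ k) p : ℝ) / p)
        ≤ c1 * x * (K * (Sg (GG F σ) z k * 8 ^ r / L ^ r)) :=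
          mul_le_mul_of_nonneg_left (h10.trans (mul_le_mul_of_nonneg_left h11 hK.le)) (by positivity)
      _ = 1 / 2 * (Sg (GG F σ) z k * x / (dd * L ^ r)) := by
          rw [hc1]
          field_simp
  refine ⟨S0 ∪ (bx A).filter (fun a => ¬ Gd (GG F σ) z y a), ?_, ?_⟩
  swap
  · intro k hk hkE h1 h2
    rw [mem_union, mem_filter] at hkE
    push Not at hkE
    exact hgood k hk hkE.1 (hkE.2 hk) ⟨h1, h2⟩
  have h9 : ((S0 ∪ (bx A).filter (fun a => ¬ Gd (GG F σ) z y a)).card : ℝ) ≤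
      S0.card + (((bx A).filter (fun a => ¬ Gd (GG F σ) z y a)).card : ℝ) := by
    exact_mod_cast card_union_le _ _
  refine h9.trans ?_
  have h10 : K2 / (z : ℝ) ≤ 1 / L ^ (U + 1) * (K2 / L) := by
    have h11 : L ^ (U + 1) * L ≤ z := by
      calc L ^ (U + 1) * L = L ^ (U + 2) := by rw [← pow_succ]
        _ ≤ L ^ (B0 + U + 2) := pow_le_pow_right₀ hL1 (by omega)
        _ ≤ z := hzL
    calc K2 / (z : ℝ) ≤ K2 / (L ^ (U + 1) * L) := div_le_div_of_nonneg_left hK20 (by positivity) h11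
      _ = _ := by field_simp
  have h12 : K2 / L ≤ 1 := by
    rw [div_le_one hL0]
    linarith
  have h13 : K2 / (z : ℝ) ≤ 1 / L ^ (U + 1) := by
    refine h10.trans ?_
    exact mul_le_of_le_one_right (by positivity) h12
  calc (S0.card : ℝ) + (((bx A).filter (fun a => ¬ Gd (GG F σ) z y a)).card : ℝ)
      ≤ (∏ i, (A i : ℝ)) / L ^ (U + 1) + (K2 / z) * ∏ l, (A l : ℝ) := add_le_add hS0 hbad
    _ ≤ (∏ i, (A i : ℝ)) / L ^ (U + 1) + (1 / L ^ (U + 1)) * ∏ l, (A l : ℝ) :=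
        add_le_add le_rfl (mul_le_mul_of_nonneg_right h13 hprod)
    _ = (2 / L) * ((∏ i, (A i : ℝ)) / L ^ U) := by
        rw [pow_succ]
        field_simp
        ring
    _ ≤ 1 * ((∏ i, (A i : ℝ)) / L ^ U) := by
        apply mul_le_mul_of_nonneg_right _ (by positivity)
        rw [div_le_one hL0]
        exact hL2
    _ = _ := one_mul _


end Pool.Agent.Y843.AQ
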