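import Pool.Agent.Y843.AQ.Vc
import Pool.Agent.Y843.AC.Gen
import Pool.Agent.Y868.TA.E2

/-! # Lower bound for the number of prime values of most quadratic polynomials, in terms of `V` -/

set_option autoImplicit false

namespace Pool.Agent.Y843.AQ

open Finset Filter
open Pool.Agent.Y843.HS (Pr VV Pr_mem Pr_prime VV_split)
open Pool.Agent.Y843.QD (Zq mem_Zq card_Zq_le)
open Pool.Agent.H373R2.T7 (pz Vz mem_pz Vz_pos)

/-- no prime divides all the values -/
def Pos (a b c : ℕ) : Prop := ∀ p : ℕ, p.Prime → ∃ n : ℕ, ¬ p ∣ a * n ^ 2 + b * n + c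

theorem pos_int {a b c : ℕ} (h : Pos a b c) (p : ℕ) (hp : p.Prime) :
    ∃ n : ℕ, ¬ (p : ℤ) ∣ (a : ℤ) * (n : ℤ) ^ 2 + b * n + (c : ℤ) := by
  obtain ⟨n, hn⟩ := h p hp
  refine ⟨n, fun h1 => hn ?_⟩
  exact_mod_cast h1

theorem cl {a b c : ℕ} (h : Pos a b c) (x : ℕ) : Pool.Agent.Y843.AC.Gn.Cl 2 x (Zq a b c) := by
  intro p hp _
  have h1 := card_Zq_le a b c (pos_int h) p hp
  refine ⟨h1.1, h1.2, ?_⟩
  intro n hn
  unfold Zq at hn
  rw [mem_filter, mem_range] at hn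
  exact hn.1

theorem dens_eq (a b c z : ℕ) :
    Pool.Agent.Y868.TA.dens 0 c a b z = (Vz z)⁻¹ * VV (Zq a b c) 0 z := by
  unfold Pool.Agent.Y868.TA.dens Pool.Agent.TH204.WR.hh VV
  congr 1
  apply prod_congr
  · ext p
    rw [mem_pz, Pr_mem]
    constructor
    · rintro ⟨h1, h2⟩
      exact ⟨⟨h2.pos, h1⟩, h2⟩
    · rintro ⟨h1, h2⟩
      exact ⟨h1.2, h2⟩
  · intro p _
    have : Pool.Agent.TH204.WR.rho (Pool.Agent.Y868.TA.pol 0 a b) c p = (Zq a b c p).card := by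
      unfold Pool.Agent.TH204.WR.rho Zq
      congr 1
      apply filter_congr
      intro n _
      rw [Pool.Agent.Y868.TA.pol_eval]
      have : (n : ℤ) * (Polynomial.eval (n : ℤ) 0 + (a : ℤ) * n + (b : ℤ)) + c =
          (a : ℤ) * (n : ℤ) ^ 2 + b * n + c := by
        rw [Polynomial.eval_zero]
        ring
      rw [this]
    rw [this]

theorem Vz_up : ∃ C : ℝ, 0 < C ∧ ∀ z : ℕ, 2 ≤ z → Real.log z ≤ C * (Vz z)⁻¹ := by
  obtain ⟨C, hC0, hC⟩ := Pool.Agent.Helper923.HMertens.mertens_ratio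
  have hl2 := Real.log_two_gt_d9
  have hl2' := Real.log_two_lt_d9
  refine ⟨Real.exp (C / Real.log 2), Real.exp_pos _, ?_⟩
  intro z hz
  have hlz : Real.log 2 ≤ Real.log z := Real.log_le_log (by norm_num) (by exact_mod_cast hz)
  have h1 := (abs_le.1 (hC 2 z le_rfl hz)).1
  have h2 : Vz z ≤ Real.exp (-∑ p ∈ (Finset.Ioc 2 z).filter Nat.Prime, (1 : ℝ) / p) := by
    rw [← sum_neg_distrib, Real.exp_sum]
    unfold Vz
    have h3 : (Finset.Ioc 2 z).filter Nat.Prime ⊆ pz z := by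
      intro p hp
      rw [mem_filter, mem_Ioc] at hp
      rw [mem_pz]
      exact ⟨hp.1.2, hp.2⟩
    have h4 : ∏ p ∈ pz z, (1 - 1 / (p : ℝ)) ≤ ∏ p ∈ (Finset.Ioc 2 z).filter Nat.Prime, (1 - 1 / (p : ℝ)) := by
      rw [← prod_sdiff h3]
      have h5 : 0 ≤ ∏ p ∈ (Finset.Ioc 2 z).filter Nat.Prime, (1 - 1 / (p : ℝ)) := by
        apply prod_nonneg
        intro p hp
        rw [mem_filter] at hp
        have : (1 : ℝ) ≤ p := by exact_mod_cast hp.2.pos
        rw [sub_nonneg, div_le_one (by linarith)]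
        exact this
      have h6 : ∏ p ∈ pz z \ (Finset.Ioc 2 z).filter Nat.Prime, (1 - 1 / (p : ℝ)) ≤ 1 := by
        apply prod_le_one
        · intro p hp
          rw [Finset.mem_sdiff, mem_pz] at hp
          have : (1 : ℝ) ≤ p := by exact_mod_cast hp.1.2.pos
          rw [sub_nonneg, div_le_one (by linarith)]
          exact this
        · intro p _
          have : (0 : ℝ) ≤ 1 / p := by positivity
          linarith
      calc _ ≤ 1 * ∏ p ∈ (Finset.Ioc 2 z).filter Nat.Prime, (1 - 1 / (p : ℝ)) := mul_le_mul_of_nonneg_right h6 h5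
        _ = _ := one_mul _
    refine h4.trans ?_
    apply Finset.prod_le_prod
    · intro p hp
      rw [mem_filter] at hp
      have : (1 : ℝ) ≤ p := by exact_mod_cast hp.2.pos
      rw [sub_nonneg, div_le_one (by linarith)]
      exact this
    · intro p _
      have := Real.add_one_le_exp (-(1 / (p : ℝ)))
      linarith
  have hV := Vz_pos z
  rw [← div_eq_mul_inv, le_div_iff₀ hV]
  have h3 : -∑ p ∈ (Finset.Ioc 2 z).filter Nat.Prime, (1 : ℝ) / p ≤
      C / Real.log 2 - Real.log (Real.log z / Real.log 2) := by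
    have e : ((2 : ℕ) : ℝ) = 2 := by norm_num
    rw [e] at h1
    linarith
  have h4 := h2.trans (Real.exp_le_exp.2 h3)
  have hlz0 : 0 < Real.log z := by linarith
  rw [Real.exp_sub, Real.exp_log (div_pos hlz0 (by linarith))] at h4
  calc Real.log z * Vz z ≤ Real.log z * (Real.exp (C / Real.log 2) / (Real.log z / Real.log 2)) :=
        mul_le_mul_of_nonneg_left h4 hlz0.le
    _ = Real.log 2 * Real.exp (C / Real.log 2) := by field_simp
    _ ≤ 1 * Real.exp (C / Real.log 2) := mul_le_mul_of_nonneg_right (by linarith) (Real.exp_pos _).le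
    _ = _ := one_mul _

theorem Vz_le_one (z : ℕ) : Vz z ≤ 1 := by
  unfold Vz
  apply prod_le_one
  · intro p hp
    rw [mem_pz] at hp
    have : (1 : ℝ) ≤ p := by exact_mod_cast hp.2.pos
    rw [sub_nonneg, div_le_one (by linarith)]
    exact this
  · intro p _
    have : (0 : ℝ) ≤ 1 / p := by positivity
    linarith

theorem evlog (N : ℕ) (C : ℝ) {ε : ℝ} (hε : 0 < ε) : ∃ x₀ : ℕ, ∀ x : ℕ, x₀ ≤ x → C * Real.log x ^ N ≤ (x : ℝ) ^ ε := by
  exact Pool.Agent.Y843.AC.HL.log_small C N hε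

theorem val_nat (a b c m : ℕ) : Pool.Agent.Y868.TA.val 0 (c : ℤ) a b m = ((a * m ^ 2 + b * m + c : ℕ) : ℤ) := by
  unfold Pool.Agent.Y868.TA.val
  rw [Polynomial.eval_zero]
  push_cast
  ring

theorem count (U K : ℕ) : ∃ C : ℕ, ∃ c₀ : ℝ, 0 < c₀ ∧ ∃ x₀ : ℕ, ∀ x : ℕ, x₀ ≤ x → ∀ D B : ℕ,
    Real.log x ^ C ≤ D → (D : ℝ) ≤ (x : ℝ) ^ K → (D : ℝ) * x ≤ B * Real.log x ^ K →
    (B : ℝ) ≤ D * x * Real.log x ^ K → ∀ c : ℕ, 1 ≤ c → c ≤ B * x →
    ∃ Bad ⊆ Icc 1 D ×ˢ Icc 1 B, (Bad.card : ℝ) ≤ D * B / Real.log x ^ U ∧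
      ∀ a ∈ Icc 1 D, ∀ b ∈ Icc 1 B, (a, b) ∉ Bad → Pos a b c → ∀ u v : ℕ, u ≤ v → v ≤ x →
        (x : ℝ) ≤ ((v : ℝ) - u) * Real.log x ^ U →
        c₀ * (((v : ℝ) - u) * VV (Zq a b c) 0 x) ≤
          (((Ioc u v).filter (fun n : ℕ => (a * n ^ 2 + b * n + c).Prime)).card : ℝ) := by
  classical
  obtain ⟨C1, E1, hth⟩ := Pool.Agent.Y868.TA.theta 2 (U + 5) K le_rfl
  obtain ⟨E, hE⟩ : ∃ E, E = max E1 (U + 3) := ⟨_, rfl⟩
  obtain ⟨x1, h1⟩ := hth (E + 1)
  obtain ⟨Cc, hCc, hcomp⟩ := V_comp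
  obtain ⟨CM, hCM, hM⟩ := Vz_up
  obtain ⟨cV, hcV, z0, hVl⟩ := Pool.Agent.Y843.AC.Gn.V_low 2
  obtain ⟨x2, h2⟩ := evlog U 8 (show (0 : ℝ) < 1 / 3 by norm_num)
  obtain ⟨x3, h3⟩ := evlog (E + 1) 1 (show (0 : ℝ) < 1 / 3 by norm_num)
  obtain ⟨x4, h4⟩ := evlog K 1 one_pos
  obtain ⟨x5, h5⟩ := evlog 0 2 (show (0 : ℝ) < 1 / 12 by norm_num)
  have hlim : Filter.Tendsto (fun N : ℕ => Real.log (N : ℝ)) Filter.atTop Filter.atTop :=
    Real.tendsto_log_atTop.comp (tendsto_natCast_atTop_atTop (R := ℝ))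
  obtain ⟨x6, h6⟩ := Filter.eventually_atTop.1 (hlim.eventually_ge_atTop (2 / cV + 4 * K + 100 + z0))
  obtain ⟨G, hG⟩ : ∃ G : ℝ, G = 3 * K + 5 := ⟨_, rfl⟩
  have hK0 : (0 : ℝ) ≤ K := Nat.cast_nonneg _
  have hG0 : 0 < G := by rw [hG]; positivity
  refine ⟨C1 + K, 1 / (CM * (2 * G) * (4 * Cc)), by positivity,
    max (max (max x1 x2) (max x3 x4)) (max (max x5 x6) 3), ?_⟩
  intro x hx D B hD1 hD2 hDB hBD c hc hcx
  have b1 := h1 x (by omega)
  have b2 := h2 x (by omega)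
  have b3 := h3 x (by omega)
  have b4 := h4 x (by omega)
  have b5 := h5 x (by omega)
  have b6 := h6 x (by omega)
  have hx3 : 3 ≤ x := by omega
  set L := Real.log x with hL
  have hx0 : (0 : ℝ) < x := by exact_mod_cast (show 0 < x by omega)
  have hx1 : (1 : ℝ) ≤ x := by exact_mod_cast (show 1 ≤ x by omega)
  have hz00 : (0 : ℝ) ≤ z0 := Nat.cast_nonneg _
  have hcV2 : 0 < 2 / cV := by positivity
  have hL100 : 100 ≤ L := by linarith
  have hL0 : 0 < L := by linarith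
  have hL1 : 1 ≤ L := by linarith
  have hLp : ∀ k : ℕ, 0 < L ^ k := fun k => by positivity
  have hLp1 : ∀ k : ℕ, 1 ≤ L ^ k := fun k => one_le_pow₀ hL1
  have hLL : ∀ {i j : ℕ}, i ≤ j → L ^ i ≤ L ^ j := fun h => pow_le_pow_right₀ hL1 h
  rw [one_mul, Real.rpow_one] at b4
  rw [one_mul] at b3
  -- the level `z`
  obtain ⟨z, hz⟩ : ∃ z, z = ⌊L ^ (E + 1)⌋₊ := ⟨_, rfl⟩
  have hz2 : (z : ℝ) ≤ L ^ (E + 1) := by rw [hz]; exact Nat.floor_le (hLp _).le
  have hz1 : L ^ E ≤ z := by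
    have h7 := Nat.lt_floor_add_one (L ^ (E + 1))
    rw [← hz, pow_succ] at h7
    have h8 := hLp1 E
    have h9 : L ^ E * 2 ≤ L ^ E * L := mul_le_mul_of_nonneg_left (by linarith) (hLp E).le
    linarith
  have hzE1 : L ^ E1 ≤ z := (hLL (by omega)).trans hz1
  have hzU : L ^ (U + 3) ≤ z := (hLL (by omega)).trans hz1
  have hz3 : L ^ 3 ≤ z := (hLL (by omega)).trans hzU
  have hzL : L ^ 2 ≤ z := (hLL (by omega)).trans hz3
  have hzL1 : L ≤ z := (le_self_pow₀ hL1 (by norm_num)).trans hzL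
  have hz3' : 3 ≤ z := by
    have : (3 : ℝ) ≤ z := by linarith
    exact_mod_cast this
  have hz0 : (0 : ℝ) < z := by linarith
  have hzz : z0 ≤ z := by
    have : (z0 : ℝ) ≤ z := by linarith
    exact_mod_cast this
  -- the level `w`
  obtain ⟨w, hw⟩ : ∃ w, w = ⌊(x : ℝ) ^ (1 / 3 : ℝ)⌋₊ := ⟨_, rfl⟩
  have hw1 : (w : ℝ) ≤ (x : ℝ) ^ (1 / 3 : ℝ) := by rw [hw]; exact Nat.floor_le (by positivity)
  have hzw : z ≤ w := by
    rw [hw]
    exact Nat.le_floor (hz2.trans b3)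
  have hw2 : (x : ℝ) ^ (1 / 4 : ℝ) ≤ w := by
    have h7 := Nat.lt_floor_add_one ((x : ℝ) ^ (1 / 3 : ℝ))
    rw [← hw] at h7
    have h8 : (x : ℝ) ^ (1 / 3 : ℝ) = (x : ℝ) ^ (1 / 4 : ℝ) * (x : ℝ) ^ (1 / 12 : ℝ) := by
      rw [← Real.rpow_add hx0]
      norm_num
    have h9 : (1 : ℝ) ≤ (x : ℝ) ^ (1 / 4 : ℝ) := Real.one_le_rpow hx1 (by norm_num)
    rw [pow_zero, mul_one] at b5
    have h10 : (x : ℝ) ^ (1 / 4 : ℝ) * 2 ≤ (x : ℝ) ^ (1 / 4 : ℝ) * (x : ℝ) ^ (1 / 12 : ℝ) :=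
      mul_le_mul_of_nonneg_left b5 (by positivity)
    linarith
  have hlw : L / 4 ≤ Real.log w := by
    have h7 := Real.log_le_log (by positivity) hw2
    rw [Real.log_rpow hx0] at h7
    linarith
  have hwx : w ≤ x := by
    have h7 : (w : ℝ) ≤ x := hw1.trans (by
      calc (x : ℝ) ^ (1 / 3 : ℝ) ≤ (x : ℝ) ^ (1 : ℝ) := Real.rpow_le_rpow_of_exponent_le hx1 (by norm_num)
        _ = x := Real.rpow_one _)
    exact_mod_cast h7
  have hwsq : 8 * L ^ U * (w : ℝ) ^ 2 ≤ x := by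
    have h7 : ((x : ℝ) ^ (1 / 3 : ℝ)) ^ 3 = (x : ℝ) := by
      rw [← Real.rpow_natCast, ← Real.rpow_mul hx0.le]
      norm_num
    have h8 : 8 * L ^ U * (w : ℝ) ^ 2 ≤ (x : ℝ) ^ (1 / 3 : ℝ) * ((x : ℝ) ^ (1 / 3 : ℝ)) ^ 2 :=
      mul_le_mul b2 (pow_le_pow_left₀ (Nat.cast_nonneg _) hw1 2) (by positivity) (by positivity)
    rw [← pow_succ', h7] at h8
    exact h8
  -- sizes
  have hD1K : L ^ K ≤ D := (hLL (by omega)).trans hD1
  have hD1C : L ^ C1 ≤ D := (hLL (by omega)).trans hD1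
  have hD1r : (1 : ℝ) ≤ D := (hLp1 K).trans hD1K
  have hD0 : (0 : ℝ) < D := by linarith
  have hxB : x ≤ B := by
    have h7 : (x : ℝ) * L ^ K ≤ B * L ^ K := by
      calc (x : ℝ) * L ^ K ≤ x * D := mul_le_mul_of_nonneg_left hD1K hx0.le
        _ = D * x := mul_comm _ _
        _ ≤ _ := hDB
    exact_mod_cast le_of_mul_le_mul_right h7 (hLp K)
  have hxBr : (x : ℝ) ≤ B := by exact_mod_cast hxB
  have hB0 : (0 : ℝ) < B := by linarith
  have hB1 : (1 : ℝ) ≤ B := by linarith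
  have hBx : (B : ℝ) ≤ (x : ℝ) ^ (K + 2) := by
    calc (B : ℝ) ≤ D * x * L ^ K := hBD
      _ ≤ (x : ℝ) ^ K * x * x := by gcongr
      _ = _ := by ring
  have hcr : (c : ℝ) ≤ B * x := by exact_mod_cast hcx
  have hc1 : (1 : ℝ) ≤ c := by exact_mod_cast hc
  -- the exceptional sets
  obtain ⟨Bad1, hB1s, hB1c, hB1'⟩ := b1 z hzE1 hz2 D B hD1C hD2 hDB hBD 0 (by simp) (by
    intro m _
    simp only [Polynomial.eval_zero, abs_zero, Int.cast_zero]
    positivity) (c : ℤ) (by omega) (by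
      have e : (((|(c : ℤ)|) : ℤ) : ℝ) = c := by simp
      rw [e]
      calc (c : ℝ) ≤ B * x := hcr
        _ = B * x * 1 := (mul_one _).symm
        _ ≤ B * x * L ^ K := mul_le_mul_of_nonneg_left (hLp1 K) (by positivity))
  obtain ⟨Bad2, hBad2⟩ : ∃ Bad2, Bad2 = (Icc 1 D ×ˢ Icc 1 B).filter (fun q : ℕ × ℕ => 1 < |sj q.1 q.2 c z w|) :=
    ⟨_, rfl⟩
  have hB2c := bad_count D B (c : ℤ) z w (by omega)
  rw [← hBad2] at hB2c
  refine ⟨Bad1 ∪ Bad2, union_subset hB1s (by rw [hBad2]; exact filter_subset _ _), ?_, ?_⟩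
  · have h7 : ((Bad1 ∪ Bad2).card : ℝ) ≤ Bad1.card + Bad2.card := by exact_mod_cast card_union_le _ _
    obtain ⟨T, hT⟩ : ∃ T : ℝ, T = D * B / L ^ U := ⟨_, rfl⟩
    have hT0 : 0 < T := by rw [hT]; positivity
    have h8 : (Bad1.card : ℝ) ≤ T / 4 := by
      refine hB1c.trans ?_
      rw [pow_add, hT, div_div]
      apply div_le_div_of_nonneg_left (by positivity) (by positivity)
      apply mul_le_mul_of_nonneg_left _ (hLp U).le
      have : L ≤ L ^ 5 := le_self_pow₀ hL1 (by norm_num)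
      linarith
    have h9 : (D : ℝ) * (2 * (((B + 1 : ℕ) : ℝ) / z)) ≤ T / 4 := by
      have h10 : ((B + 1 : ℕ) : ℝ) ≤ 2 * B := by push_cast; linarith
      have h11 : ((B + 1 : ℕ) : ℝ) / z ≤ 2 * B / L ^ (U + 3) := div_le_div₀ (by positivity) h10 (hLp _) hzU
      have h12 : 2 * (B : ℝ) / L ^ (U + 3) ≤ B / L ^ U / 8 := by
        rw [pow_add, div_div, div_le_div_iff₀ (by positivity) (by positivity)]
        have h13 : 16 ≤ L ^ 3 := by
          have : L ≤ L ^ 3 := le_self_pow₀ hL1 (by norm_num)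
          linarith
        have h14 : 0 ≤ (B : ℝ) * L ^ U := by positivity
        have h15 := mul_le_mul_of_nonneg_left h13 h14
        have h16 : 2 * (B : ℝ) * (L ^ U * 8) = B * L ^ U * 16 := by ring
        rw [h16, ← mul_assoc]
        exact h15
      calc (D : ℝ) * (2 * (((B + 1 : ℕ) : ℝ) / z)) ≤ D * (2 * (B / L ^ U / 8)) := by
            apply mul_le_mul_of_nonneg_left _ hD0.le
            linarith
        _ = T / 4 := by rw [hT]; ring
    have h10 : (D : ℝ) * (w : ℝ) ^ 2 ≤ T / 8 := by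
      have h11 : (w : ℝ) ^ 2 ≤ B / L ^ U / 8 := by
        rw [div_div, le_div_iff₀ (by positivity)]
        have h12 : (w : ℝ) ^ 2 * (L ^ U * 8) = 8 * L ^ U * (w : ℝ) ^ 2 := by ring
        rw [h12]
        exact hwsq.trans hxBr
      calc (D : ℝ) * (w : ℝ) ^ 2 ≤ D * (B / L ^ U / 8) := mul_le_mul_of_nonneg_left h11 hD0.le
        _ = T / 8 := by rw [hT]; ring
    rw [← hT]
    have h11 : (D : ℝ) * (2 * (((B + 1 : ℕ) : ℝ) / z) + (w : ℝ) ^ 2) =
        D * (2 * (((B + 1 : ℕ) : ℝ) / z)) + D * (w : ℝ) ^ 2 := by ring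
    linarith
  · intro a ha b hb hab hpos u v huv hvx hlong
    rw [mem_union, not_or] at hab
    have ha' := mem_Icc.1 ha
    have hb' := mem_Icc.1 hb
    have har : (a : ℝ) ≤ D := by exact_mod_cast ha'.2
    have hbr : (b : ℝ) ≤ B := by exact_mod_cast hb'.2
    have ha1 : (1 : ℝ) ≤ a := by exact_mod_cast ha'.1
    -- the sum of the symbols
    have hs : -1 ≤ sj a b c z w := by
      have h7 := hab.2
      rw [hBad2, mem_filter, mem_product, not_and] at h7
      have h8 := h7 ⟨ha, hb⟩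
      rw [not_lt] at h8
      exact (abs_le.1 h8).1
    have hlogc : Real.log (4 * (a : ℤ) * (c : ℤ)).natAbs ≤ z := by
      have e : (4 * (a : ℤ) * (c : ℤ)).natAbs = 4 * a * c := by
        have : (4 * (a : ℤ) * (c : ℤ)) = ((4 * a * c : ℕ) : ℤ) := by push_cast; ring
        rw [this, Int.natAbs_natCast]
      rw [e]
      have h7 : ((4 * a * c : ℕ) : ℝ) ≤ (x : ℝ) ^ (4 * K + 8) := by
        push_cast
        calc 4 * (a : ℝ) * c ≤ (x : ℝ) ^ 2 * (x : ℝ) ^ K * ((x : ℝ) ^ (K + 2) * x) := by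
              have h8 : (4 : ℝ) ≤ (x : ℝ) ^ 2 := by
                have h3' : (3 : ℝ) ≤ x := by exact_mod_cast hx3
                exact le_trans (by norm_num) (pow_le_pow_left₀ (by norm_num) h3' 2)
              have h9 : (c : ℝ) ≤ (x : ℝ) ^ (K + 2) * x := hcr.trans (mul_le_mul_of_nonneg_right hBx hx0.le)
              have h10 : (a : ℝ) ≤ (x : ℝ) ^ K := har.trans hD2
              gcongr
          _ = (x : ℝ) ^ (2 * K + 5) := by ring
          _ ≤ _ := pow_le_pow_right₀ hx1 (by omega)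
      have h8 := Real.log_le_log (by
        have : 0 < 4 * a * c := Nat.mul_pos (Nat.mul_pos (by norm_num) (by omega)) (by omega)
        exact_mod_cast this) h7
      rw [Real.log_pow] at h8
      push_cast at h8 ⊢
      refine h8.trans (le_trans ?_ hz3)
      have h9 : (4 * (K : ℝ) + 8) * L ≤ L * L := mul_le_mul_of_nonneg_right (by linarith) hL0.le
      have h10 : L * L ≤ L ^ 3 := by
        calc L * L = L ^ 2 := (sq L).symm
          _ ≤ L ^ 3 := hLL (by norm_num)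
      linarith
    have hcl := cl hpos x
    have hv := hcomp z w hz3' hzw a b c ha'.1 (by omega) hs hlogc (by
      intro p hp
      have hp' := hp
      rw [Pr_mem] at hp'
      exact (hcl p hp'.2 (by omega)).2.1.le)
    -- the products
    obtain ⟨Vzz, hVzz⟩ : ∃ t, t = VV (Zq a b c) 0 z := ⟨_, rfl⟩
    obtain ⟨Vx, hVx⟩ : ∃ t, t = VV (Zq a b c) 0 x := ⟨_, rfl⟩
    have hlzL : Real.log z ≤ L := by
      apply Real.log_le_log hz0
      exact_mod_cast hzw.trans hwx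
    have hlz1 : 1 ≤ Real.log z := by
      have h3 : (3 : ℝ) ≤ z := by exact_mod_cast hz3'
      have : Real.exp 1 ≤ z := by
        have := Real.exp_one_lt_d9
        linarith
      rw [Real.le_log_iff_exp_le (by linarith)]
      exact this
    have hVz_low : cV / L ^ 4 ≤ Vzz := by
      have h7 := hVl z hzz (Zq a b c) (cl hpos z)
      rw [← hVzz] at h7
      refine le_trans ?_ h7
      apply div_le_div_of_nonneg_left hcV.le (by positivity)
      exact pow_le_pow_left₀ (by linarith) hlzL 4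
    have hVzz0 : 0 < Vzz := lt_of_lt_of_le (by positivity) hVz_low
    have hVxz : Vx ≤ Vzz * (Cc * (Real.log z / Real.log w)) := by
      have h7 : Vx ≤ VV (Zq a b c) 0 w := by
        rw [hVx]
        apply Pool.Agent.Y843.HG.VV_anti hwx
        intro p hp
        have hp' := hp
        rw [Pr_mem] at hp'
        exact (hcl p hp'.2 hp'.1.2).2.2
      refine h7.trans ?_
      rw [← VV_split (Zq a b c) (Nat.zero_le z) hzw, ← hVzz]
      exact mul_le_mul_of_nonneg_left hv hVzz0.le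
    have hVxz2 : Vx * L ≤ Vzz * (4 * Cc * Real.log z) := by
      have h7 : Real.log z / Real.log w ≤ Real.log z / (L / 4) :=
        div_le_div_of_nonneg_left (by linarith) (by positivity) hlw
      have h8 : Vx ≤ Vzz * (Cc * (Real.log z / (L / 4))) :=
        hVxz.trans (mul_le_mul_of_nonneg_left (mul_le_mul_of_nonneg_left h7 hCc.le) hVzz0.le)
      calc Vx * L ≤ Vzz * (Cc * (Real.log z / (L / 4))) * L := mul_le_mul_of_nonneg_right h8 hL0.le
        _ = _ := by field_simp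
    obtain ⟨d, hd⟩ : ∃ d, d = Pool.Agent.Y868.TA.dens 0 (c : ℤ) a b z := ⟨_, rfl⟩
    have hdz : d = (Vz z)⁻¹ * Vzz := by rw [hd, hVzz]; exact dens_eq a b c z
    have hVz0 := Vz_pos z
    have hVz1 := Vz_le_one z
    have hdlow : cV / L ^ 4 ≤ d := by
      rw [hdz]
      have h7 : 1 ≤ (Vz z)⁻¹ := (one_le_inv₀ hVz0).2 hVz1
      calc cV / L ^ 4 ≤ 1 * Vzz := by rw [one_mul]; exact hVz_low
        _ ≤ _ := mul_le_mul_of_nonneg_right h7 hVzz0.le
    have hd0 : 0 < d := lt_of_lt_of_le (by positivity) hdlow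
    have hdM : Real.log z * Vzz ≤ CM * d := by
      rw [hdz]
      have h7 := mul_le_mul_of_nonneg_right (hM z (by omega)) hVzz0.le
      linarith
    -- the weighted count
    have h7 := hB1' a ha b hb hab.1 u v huv hvx (by
      intro m _
      rw [val_nat]
      exact Int.natCast_nonneg _)
    rw [← hd] at h7
    obtain ⟨N, hN⟩ : ∃ N, N = ((Ioc u v).filter (fun n : ℕ => (a * n ^ 2 + b * n + c).Prime)).card := ⟨_, rfl⟩
    rw [← hN, ← hVx]
    obtain ⟨Xw, hXw⟩ : ∃ Xw : ℝ, Xw = (v : ℝ) - u := ⟨_, rfl⟩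
    rw [← hXw] at hlong ⊢
    have hXw0 : 0 < Xw := by
      by_contra hcon
      rw [not_lt] at hcon
      have : Xw * L ^ U ≤ 0 := mul_nonpos_of_nonpos_of_nonneg hcon (hLp U).le
      linarith
    have h8 : ∑ m ∈ Ioc u v, (Pool.Agent.Y868.TA.th (Pool.Agent.Y868.TA.val 0 (c : ℤ) a b m).toNat - d) =
        ∑ m ∈ Ioc u v, Pool.Agent.Y868.TA.th (a * m ^ 2 + b * m + c) - Xw * d := by
      rw [sum_sub_distrib, sum_const, Nat.card_Ioc, nsmul_eq_mul, Nat.cast_sub huv, hXw]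
      congr 1
      apply sum_congr rfl
      intro m _
      rw [val_nat, Int.toNat_natCast]
    rw [h8] at h7
    have h9 : ∑ m ∈ Ioc u v, Pool.Agent.Y868.TA.th (a * m ^ 2 + b * m + c) ≤ N * (G * L) := by
      have h10 : ∑ m ∈ Ioc u v, Pool.Agent.Y868.TA.th (a * m ^ 2 + b * m + c) =
          ∑ m ∈ (Ioc u v).filter (fun n : ℕ => (a * n ^ 2 + b * n + c).Prime), Real.log ((a * m ^ 2 + b * m + c : ℕ) : ℝ) := by
        rw [sum_filter]
        rfl
      rw [h10, hN, ← nsmul_eq_mul]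
      apply sum_le_card_nsmul
      intro m hm
      rw [mem_filter, mem_Ioc] at hm
      have hmx : (m : ℝ) ≤ x := by exact_mod_cast hm.1.2.trans hvx
      have h11 : ((a * m ^ 2 + b * m + c : ℕ) : ℝ) ≤ (x : ℝ) ^ (3 * K + 5) := by
        push_cast
        have h12 : (a : ℝ) ≤ (x : ℝ) ^ K := har.trans hD2
        have h13 : (b : ℝ) ≤ (x : ℝ) ^ (K + 2) := hbr.trans hBx
        have h14 : (c : ℝ) ≤ (x : ℝ) ^ (K + 2) * x := hcr.trans (mul_le_mul_of_nonneg_right hBx hx0.le)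
        have h15 : (3 : ℝ) ≤ (x : ℝ) ^ 2 := by
          have h3' : (3 : ℝ) ≤ x := by exact_mod_cast hx3
          exact le_trans (by norm_num) (pow_le_pow_left₀ (by norm_num) h3' 2)
        calc (a : ℝ) * (m : ℝ) ^ 2 + b * m + c ≤ (x : ℝ) ^ K * (x : ℝ) ^ 2 + (x : ℝ) ^ (K + 2) * x + (x : ℝ) ^ (K + 2) * x := by
              gcongr
          _ ≤ (x : ℝ) ^ (K + 3) + (x : ℝ) ^ (K + 3) + (x : ℝ) ^ (K + 3) := by
              have h16 : (x : ℝ) ^ K * (x : ℝ) ^ 2 ≤ (x : ℝ) ^ (K + 3) := by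
                rw [← pow_add]
                exact pow_le_pow_right₀ hx1 (by omega)
              have h17 : (x : ℝ) ^ (K + 2) * x = (x : ℝ) ^ (K + 3) := by ring
              linarith
          _ = 3 * (x : ℝ) ^ (K + 3) := by ring
          _ ≤ (x : ℝ) ^ 2 * (x : ℝ) ^ (K + 3) := mul_le_mul_of_nonneg_right h15 (by positivity)
          _ = (x : ℝ) ^ (K + 5) := by ring
          _ ≤ _ := pow_le_pow_right₀ hx1 (by omega)
      have h12 := Real.log_le_log (by exact_mod_cast hm.2.pos) h11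
      rw [Real.log_pow] at h12
      rw [hG]
      push_cast at h12 ⊢
      exact h12
    have h10 : (x : ℝ) / L ^ (U + 5) ≤ Xw * d / 2 := by
      have h11 : (x : ℝ) / L ^ (U + 5) ≤ Xw / L ^ 5 := by
        rw [div_le_div_iff₀ (by positivity) (by positivity), pow_add]
        calc (x : ℝ) * L ^ 5 ≤ Xw * L ^ U * L ^ 5 := mul_le_mul_of_nonneg_right hlong (hLp 5).le
          _ = _ := by ring
      have h12 : Xw / L ^ 5 ≤ Xw * (cV / L ^ 4) / 2 := by
        have h13 : 2 ≤ cV * L := by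
          have h14 : 2 / cV ≤ L := by linarith
          rw [div_le_iff₀ hcV] at h14
          linarith
        rw [div_le_div_iff₀ (by positivity) (by norm_num)]
        have e : Xw * (cV / L ^ 4) * L ^ 5 = Xw * (cV * L) := by field_simp
        rw [e]
        exact mul_le_mul_of_nonneg_left h13 hXw0.le
      refine h11.trans (h12.trans ?_)
      have := mul_le_mul_of_nonneg_left hdlow hXw0.le
      linarith
    have h11 : Xw * d / 2 ≤ N * (G * L) := by
      have := (abs_le.1 h7).1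
      linarith
    have h12 : Xw * (Vx * L) ≤ Xw * (4 * Cc * (CM * d)) := by
      apply mul_le_mul_of_nonneg_left _ hXw0.le
      calc Vx * L ≤ Vzz * (4 * Cc * Real.log z) := hVxz2
        _ = 4 * Cc * (Real.log z * Vzz) := by ring
        _ ≤ _ := mul_le_mul_of_nonneg_left hdM (by positivity)
    rw [one_div, inv_mul_le_iff₀ (by positivity)]
    have h13 : Xw * Vx * L ≤ CM * (2 * G) * (4 * Cc) * N * L := by
      calc Xw * Vx * L = Xw * (Vx * L) := by ring
        _ ≤ Xw * (4 * Cc * (CM * d)) := h12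
        _ = 8 * Cc * CM * (Xw * d / 2) := by ring
        _ ≤ 8 * Cc * CM * (N * (G * L)) := mul_le_mul_of_nonneg_left h11 (by positivity)
        _ = _ := by ring
    exact le_of_mul_le_mul_right h13 hL0

end Pool.Agent.Y843.AQ
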