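import Pool.Agent.Y843.AQ.Cnt
import Pool.Agent.Y868.TC.P4

/-! # Primes `n` with `a n ^ 2 + b n + c` prime: lower bound for most `(a, b)` in terms of `V` -/

set_option autoImplicit false

namespace Pool.Agent.Y843.AQ.Arg

open Finset Filter
open Pool.Agent.Y843.HS (Pr VV Pr_mem Pr_prime VV_split)
open Pool.Agent.Y843.QD (Zq mem_Zq card_Zq_le card_Zq_eq)
open Pool.Agent.H373R2.T7 (pz Vz mem_pz Vz_pos)
open Pool.Agent.Y868.TC.Arg (poly NoFixed omega sing mainSum final)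

/-- the roots of `n (a n ^ 2 + b n + c)` modulo `p` -/
def Zr (a b c p : ℕ) : Finset ℕ := (range p).filter (fun n => p ∣ n * (a * n ^ 2 + b * n + c))

/-- no prime divides all the values of `n (a n ^ 2 + b n + c)` -/
def Pos2 (a b c : ℕ) : Prop := ∀ p : ℕ, p.Prime → ∃ n : ℕ, ¬ p ∣ n * (a * n ^ 2 + b * n + c)

theorem Pos2.pos {a b c : ℕ} (h : Pos2 a b c) : Pos a b c := by
  intro p hp
  obtain ⟨n, hn⟩ := h p hp
  exact ⟨n, fun h1 => hn (Dvd.dvd.mul_left h1 n)⟩

theorem mem_Zr (a b c : ℕ) {p : ℕ} (hp : p.Prime) (n : ℕ) :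
    n % p ∈ Zr a b c p ↔ p ∣ n * (a * n ^ 2 + b * n + c) := by
  have h1 := mem_Zq (α := a) (β := b) (γ := c) hp.pos n
  have h2 : n % p ∈ Zq a b c p ↔ p ∣ a * (n % p) ^ 2 + b * (n % p) + c := by
    unfold Zq
    rw [mem_filter, mem_range, ← Int.natCast_dvd_natCast]
    push_cast
    constructor
    · intro h
      have := h.2
      push_cast at this
      exact this
    · intro h
      refine ⟨Nat.mod_lt _ hp.pos, ?_⟩
      push_cast
      exact h
  have h3 : (p : ℤ) ∣ (a : ℤ) * (n : ℤ) ^ 2 + b * n + c ↔ p ∣ a * n ^ 2 + b * n + c := by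
    rw [← Int.natCast_dvd_natCast]
    push_cast
    rfl
  unfold Zr
  rw [mem_filter, mem_range, hp.dvd_mul, hp.dvd_mul, ← h2, h1, h3]
  constructor
  · rintro ⟨_, h⟩
    rcases h with h | h
    · left
      exact (Nat.dvd_mod_iff dvd_rfl).1 h
    · exact Or.inr h
  · intro h
    refine ⟨Nat.mod_lt _ hp.pos, ?_⟩
    rcases h with h | h
    · left
      exact (Nat.dvd_mod_iff dvd_rfl).2 h
    · exact Or.inr h

theorem Zr_eq (a b c : ℕ) {p : ℕ} (hp : p.Prime) : Zr a b c p = insert 0 (Zq a b c p) := by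
  ext n
  unfold Zr Zq
  rw [mem_filter, mem_insert, mem_filter, mem_range, hp.dvd_mul, ← Int.natCast_dvd_natCast (m := p)
    (n := a * n ^ 2 + b * n + c)]
  push_cast
  constructor
  · rintro ⟨h1, h2⟩
    rcases h2 with h2 | h2
    · left
      exact Nat.eq_zero_of_dvd_of_lt h2 h1
    · exact Or.inr ⟨h1, h2⟩
  · intro h
    rcases h with h | h
    · rw [h]
      exact ⟨hp.pos, Or.inl (dvd_zero _)⟩
    · exact ⟨h.1, Or.inr h.2⟩

theorem card_Zr (a b c : ℕ) {p : ℕ} (hp : p.Prime) (hc : ¬ p ∣ c) : (Zr a b c p).card = (Zq a b c p).card + 1 := by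
  rw [Zr_eq a b c hp, card_insert_of_notMem]
  intro h
  unfold Zq at h
  rw [mem_filter] at h
  apply hc
  have := h.2
  push_cast at this
  rw [← Int.natCast_dvd_natCast]
  simpa using this

theorem cl {a b c : ℕ} (h : Pos2 a b c) (x : ℕ) : Pool.Agent.Y843.AC.Gn.Cl 3 x (Zr a b c) := by
  intro p hp _
  have h1 := card_Zq_le a b c (pos_int h.pos) p hp
  refine ⟨?_, ?_, ?_⟩
  · rw [Zr_eq a b c hp]
    refine (card_insert_le _ _).trans ?_
    omega
  · obtain ⟨n, hn⟩ := h p hp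
    rw [← mem_Zr a b c hp] at hn
    have h2 : Zr a b c p ⊂ range p := by
      rw [Finset.ssubset_iff_subset_ne]
      refine ⟨filter_subset _ _, ?_⟩
      intro h
      apply hn
      rw [h, mem_range]
      exact Nat.mod_lt _ hp.pos
    have := card_lt_card h2
    rwa [card_range] at this
  · intro n hn
    unfold Zr at hn
    rw [mem_filter, mem_range] at hn
    exact hn.1

/-- the comparison -/
theorem V_comp2 : ∃ C : ℝ, 0 < C ∧ ∀ z w : ℕ, 3 ≤ z → z ≤ w → ∀ (a b c : ℕ), 1 ≤ a → 1 ≤ c →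
    -1 ≤ sj a b c z w → Real.log (4 * a * c) ≤ z →
    (∀ p ∈ Pr z w, (Zr a b c p).card ≤ p) →
    VV (Zr a b c) z w ≤ C * (Real.log z / Real.log w) ^ 2 := by
  obtain ⟨C, hC0, hC⟩ := Pool.Agent.Helper923.HMertens.mertens_ratio
  refine ⟨Real.exp (2 * C + 5), Real.exp_pos _, ?_⟩
  intro z w hz hzw a b c ha hc hs hlog hcard
  have hz0 : (0 : ℝ) < z := by exact_mod_cast (show 0 < z by omega)
  have hlz : 1 ≤ Real.log z := by
    have h3 : (3 : ℝ) ≤ z := by exact_mod_cast hz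
    have : Real.exp 1 ≤ z := by
      have := Real.exp_one_lt_d9
      linarith
    rw [Real.le_log_iff_exp_le (by linarith)]
    exact this
  have hlzw : Real.log z ≤ Real.log w := Real.log_le_log hz0 (by exact_mod_cast hzw)
  have hlw : 0 < Real.log w := by linarith
  have h1 : VV (Zr a b c) z w ≤ Real.exp (-∑ p ∈ Pr z w, ((Zr a b c p).card : ℝ) / p) := by
    unfold VV
    rw [← sum_neg_distrib, Real.exp_sum]
    apply Finset.prod_le_prod
    · intro p hp
      have hp0 : (0 : ℝ) < p := by exact_mod_cast (Pr_prime hp).pos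
      rw [sub_nonneg, div_le_one hp0]
      exact_mod_cast hcard p hp
    · intro p _
      have := Real.add_one_le_exp (-(((Zr a b c p).card : ℝ) / p))
      linarith
  have hN : 4 * a * c ≠ 0 := by
    have : 0 < 4 * a * c := Nat.mul_pos (Nat.mul_pos (by norm_num) (by omega)) (by omega)
    omega
  have h2 : ∑ p ∈ (Pr z w).filter (fun p : ℕ => (p : ℤ) ∣ 4 * a * c), (1 : ℝ) / p ≤ 2 := by
    have h3 : ∀ p ∈ (Pr z w).filter (fun p : ℕ => (p : ℤ) ∣ 4 * a * c), (1 : ℝ) / p ≤ 1 / z := by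
      intro p hp
      rw [mem_filter, Pr_mem] at hp
      apply one_div_le_one_div_of_le hz0
      exact_mod_cast hp.1.1.1.le
    refine (sum_le_sum h3).trans ?_
    rw [sum_const, nsmul_eq_mul]
    have h4 : (((Pr z w).filter (fun p : ℕ => (p : ℤ) ∣ 4 * a * c)).card : ℝ) ≤ 2 * z := by
      have h5 : (Pr z w).filter (fun p : ℕ => (p : ℤ) ∣ 4 * a * c) ⊆ (4 * a * c).primeFactors := by
        intro p hp
        rw [mem_filter, Pr_mem] at hp
        rw [Nat.mem_primeFactors]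
        refine ⟨hp.1.2, ?_, hN⟩
        have h6 := hp.2
        exact_mod_cast h6
      have h6 := Pool.Agent.H398R2.BV.omega_le_log (4 * a * c) (by omega)
      push_cast at h6
      have h7 : (((Pr z w).filter (fun p : ℕ => (p : ℤ) ∣ 4 * a * c)).card : ℝ) ≤
          (4 * a * c).primeFactors.card := by exact_mod_cast card_le_card h5
      linarith
    calc _ ≤ 2 * (z : ℝ) * (1 / z) := mul_le_mul_of_nonneg_right h4 (by positivity)
      _ = 2 := by field_simp
  have h3 : 2 * ∑ p ∈ Pr z w, (1 : ℝ) / p - 5 ≤ ∑ p ∈ Pr z w, ((Zr a b c p).card : ℝ) / p := by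
    have h4 := sum_filter_add_sum_filter_not (Pr z w) (fun p : ℕ => (p : ℤ) ∣ 4 * a * c) (fun p => (1 : ℝ) / p)
    have h5 := sum_filter_add_sum_filter_not (Pr z w) (fun p : ℕ => (p : ℤ) ∣ 4 * a * c)
      (fun p => ((Zr a b c p).card : ℝ) / p)
    have h6 : 0 ≤ ∑ p ∈ (Pr z w).filter (fun p : ℕ => (p : ℤ) ∣ 4 * a * c), ((Zr a b c p).card : ℝ) / p :=
      sum_nonneg fun p _ => by positivity
    have h7 : ∑ p ∈ (Pr z w).filter (fun p : ℕ => ¬ (p : ℤ) ∣ 4 * a * c), ((Zr a b c p).card : ℝ) / p =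
        2 * ∑ p ∈ (Pr z w).filter (fun p : ℕ => ¬ (p : ℤ) ∣ 4 * a * c), (1 : ℝ) / p + sj a b c z w := by
      unfold sj
      rw [mul_sum, ← sum_add_distrib]
      apply sum_congr rfl
      intro p hp
      rw [mem_filter, Pr_mem] at hp
      have h8 : ¬ (p : ℤ) ∣ (a : ℤ) := by
        intro h
        apply hp.2
        exact Dvd.dvd.mul_right (Dvd.dvd.mul_left h 4) (c : ℤ)
      have h8' : ¬ p ∣ c := by
        intro h
        apply hp.2
        exact Dvd.dvd.mul_left (Int.natCast_dvd_natCast.2 h) _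
      have h9 := card_Zq_eq a b c p hp.1.2 (by omega) h8
      have h10 : ((Zq a b c p).card : ℝ) = 1 + (jacobiSym ((b : ℤ) ^ 2 - 4 * a * c) p : ℝ) := by exact_mod_cast h9
      rw [card_Zr a b c hp.1.2 h8']
      push_cast
      rw [h10]
      ring
    linarith
  have h4 := (abs_le.1 (hC z w (by omega) hzw)).1
  have h5 : C / Real.log z ≤ C := div_le_self hC0 hlz
  have h6 : ∑ p ∈ Pr z w, (1 : ℝ) / p = ∑ p ∈ (Finset.Ioc z w).filter Nat.Prime, (1 : ℝ) / p := rfl
  rw [h6] at h3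
  have h7 : -∑ p ∈ Pr z w, ((Zr a b c p).card : ℝ) / p ≤
      2 * C + 5 + ((-Real.log (Real.log w / Real.log z)) + (-Real.log (Real.log w / Real.log z))) := by linarith
  refine h1.trans ((Real.exp_le_exp.2 h7).trans (le_of_eq ?_))
  have hq : 0 < Real.log w / Real.log z := by positivity
  rw [Real.exp_add (2 * C + 5), Real.exp_add (-Real.log (Real.log w / Real.log z)), Real.exp_neg,
    Real.exp_log hq, inv_div, ← sq]

theorem sing_eq (a b c z : ℕ) (f : Fin 1 → Polynomial ℤ) (hf : ∀ i, f i = poly 0 a b (c : ℤ)) :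
    sing f z = ((Vz z)⁻¹) ^ 2 * VV (Zr a b c) 0 z := by
  have hom : ∀ p, omega f p = (Zr a b c p).card := by
    intro p
    unfold omega Zr
    congr 1
    apply filter_congr
    intro n _
    rw [Fin.prod_univ_one, hf 0, ← Int.natCast_dvd_natCast]
    unfold Pool.Agent.Y868.TC.Arg.poly
    have : Polynomial.eval (n : ℤ) (Polynomial.X * (0 + Polynomial.C (a : ℤ) * Polynomial.X +
        Polynomial.C (b : ℤ)) + Polynomial.C (c : ℤ)) = (a : ℤ) * (n : ℤ) ^ 2 + b * n + c := by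
      simp
      ring
    rw [this]
    push_cast
    rfl
  unfold Pool.Agent.Y868.TC.Arg.sing VV Vz
  rw [← prod_inv_distrib, ← prod_pow]
  have e : Pr 0 z = pz z := by
    ext p
    rw [mem_pz, Pr_mem]
    constructor
    · rintro ⟨h1, h2⟩
      exact ⟨h1.2, h2⟩
    · rintro ⟨h1, h2⟩
      exact ⟨⟨h2.pos, h1⟩, h2⟩
  rw [e, ← prod_mul_distrib]
  unfold pz
  apply prod_congr rfl
  intro p _
  rw [hom p, div_eq_mul_inv, inv_pow]
  ring

theorem eval_poly (a b c : ℕ) (n : ℕ) : (poly 0 a b (c : ℤ)).eval (n : ℤ) = ((a * n ^ 2 + b * n + c : ℕ) : ℤ) := by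
  unfold Pool.Agent.Y868.TC.Arg.poly
  simp
  ring

theorem deg_poly (a b c : ℕ) (ha : 1 ≤ a) : 1 ≤ (poly 0 a b (c : ℤ)).natDegree := by
  by_contra hcon
  have h0 : (poly 0 a b (c : ℤ)).natDegree = 0 := by omega
  have h1 := Polynomial.eq_C_of_natDegree_eq_zero h0
  have h2 := eval_poly a b c 0
  have h3 := eval_poly a b c 1
  rw [h1, Polynomial.eval_C] at h2 h3
  rw [h2] at h3
  have h4 : a * 0 ^ 2 + b * 0 + c = a * 1 ^ 2 + b * 1 + c := by exact_mod_cast h3
  omega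

theorem count (U K : ℕ) : ∃ C : ℕ, ∃ c₀ : ℝ, 0 < c₀ ∧ ∃ x₀ : ℕ, ∀ x : ℕ, x₀ ≤ x → ∀ D B : ℕ,
    Real.log x ^ C ≤ D → (D : ℝ) ≤ (x : ℝ) ^ K → (D : ℝ) * x ≤ B * Real.log x ^ K →
    (B : ℝ) ≤ D * x * Real.log x ^ K → ∀ c : ℕ, 1 ≤ c → c ≤ B * x →
    ∃ Bad ⊆ Icc 1 D ×ˢ Icc 1 B, (Bad.card : ℝ) ≤ D * B / Real.log x ^ U ∧
      ∀ a ∈ Icc 1 D, ∀ b ∈ Icc 1 B, (a, b) ∉ Bad → Pos2 a b c → ∀ u v : ℕ, u ≤ v → v ≤ x →
        (x : ℝ) ≤ ((v : ℝ) - u) * Real.log x ^ U →
        c₀ * (((v : ℝ) - u) * VV (Zr a b c) 0 x) ≤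
          (((Ioc u v).filter (fun n : ℕ => n.Prime ∧ (a * n ^ 2 + b * n + c).Prime)).card : ℝ) := by
  classical
  obtain ⟨C1, E1, hth⟩ := final 1 2 (U + 4) K le_rfl le_rfl
  obtain ⟨E, hE⟩ : ∃ E, E = max E1 (U + 3) := ⟨_, rfl⟩
  obtain ⟨x1, h1⟩ := hth (E + 1)
  obtain ⟨Cc, hCc, hcomp⟩ := V_comp2
  obtain ⟨CM, hCM, hM⟩ := Vz_up
  obtain ⟨cV, hcV, z0, hVl⟩ := Pool.Agent.Y843.AC.Gn.V_low 3
  obtain ⟨x2, h2⟩ := evlog U 8 (show (0 : ℝ) < 1 / 3 by norm_num)
  obtain ⟨x3, h3⟩ := evlog (E + 1) 1 (show (0 : ℝ) < 1 / 3 by norm_num)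
  obtain ⟨x4, h4⟩ := evlog K 1 one_pos
  obtain ⟨x5, h5⟩ := evlog 0 2 (show (0 : ℝ) < 1 / 12 by norm_num)
  have hlim : Filter.Tendsto (fun N : ℕ => Real.log (N : ℝ)) Filter.atTop Filter.atTop :=
    Real.tendsto_log_atTop.comp (tendsto_natCast_atTop_atTop (R := ℝ))
  obtain ⟨x6, h6⟩ := Filter.eventually_atTop.1 (hlim.eventually_ge_atTop (4 * (3 * K + 5) + 4 * K + 100 + z0))
  obtain ⟨G, hG⟩ : ∃ G : ℝ, G = 3 * K + 5 := ⟨_, rfl⟩
  have hK0 : (0 : ℝ) ≤ K := Nat.cast_nonneg _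
  have hG0 : 0 < G := by rw [hG]; positivity
  refine ⟨C1 + K, 1 / (CM ^ 2 * (4 * G) * (16 * Cc)), by positivity,
    max (max (max x1 x2) (max x3 x4)) (max (max x5 x6) 3), ?_⟩
  intro x hx D B hD1 hD2 hDB hBD c hc hcx
  have b1 := h1 x (by omega)
  have b2 := h2 x (by omega)
  have b3 := h3 x (by omega)
  have b4 := h4 x (by omega)
  have b5 := h5 x (by omega)
  have b6 := h6 x (by omega)
  have hx3 : 3 ≤ x := by omega
  set L := Real.log x with hL
  have hx0 : (0 : ℝ) < x := by exact_mod_cast (show 0 < x by omega)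
  have hx1 : (1 : ℝ) ≤ x := by exact_mod_cast (show 1 ≤ x by omega)
  have hz00 : (0 : ℝ) ≤ z0 := Nat.cast_nonneg _
  have hL100 : 100 ≤ L := by linarith
  have hL0 : 0 < L := by linarith
  have hL1 : 1 ≤ L := by linarith
  have hLp : ∀ k : ℕ, 0 < L ^ k := fun k => by positivity
  have hLp1 : ∀ k : ℕ, 1 ≤ L ^ k := fun k => one_le_pow₀ hL1
  have hLL : ∀ {i j : ℕ}, i ≤ j → L ^ i ≤ L ^ j := fun h => pow_le_pow_right₀ hL1 h
  rw [one_mul, Real.rpow_one] at b4
  rw [one_mul] at b3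
  -- the level `z`
  obtain ⟨z, hz⟩ : ∃ z, z = ⌊L ^ (E + 1)⌋₊ := ⟨_, rfl⟩
  have hz2 : (z : ℝ) ≤ L ^ (E + 1) := by rw [hz]; exact Nat.floor_le (hLp _).le
  have hz1 : L ^ E ≤ z := by
    have h7 := Nat.lt_floor_add_one (L ^ (E + 1))
    rw [← hz, pow_succ] at h7
    have h8 := hLp1 E
    have h9 : L ^ E * 2 ≤ L ^ E * L := mul_le_mul_of_nonneg_left (by linarith) (hLp E).le
    linarith
  have hzE1 : L ^ E1 ≤ z := (hLL (by omega)).trans hz1
  have hzU : L ^ (U + 3) ≤ z := (hLL (by omega)).trans hz1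
  have hz3 : L ^ 3 ≤ z := (hLL (by omega)).trans hzU
  have hzL : L ^ 2 ≤ z := (hLL (by omega)).trans hz3
  have hzL1 : L ≤ z := (le_self_pow₀ hL1 (by norm_num)).trans hzL
  have hz3' : 3 ≤ z := by
    have : (3 : ℝ) ≤ z := by linarith
    exact_mod_cast this
  have hz0 : (0 : ℝ) < z := by linarith
  have hzz : z0 ≤ z := by
    have : (z0 : ℝ) ≤ z := by linarith
    exact_mod_cast this
  -- the level `w`
  obtain ⟨w, hw⟩ : ∃ w, w = ⌊(x : ℝ) ^ (1 / 3 : ℝ)⌋₊ := ⟨_, rfl⟩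
  have hw1 : (w : ℝ) ≤ (x : ℝ) ^ (1 / 3 : ℝ) := by rw [hw]; exact Nat.floor_le (by positivity)
  have hzw : z ≤ w := by
    rw [hw]
    exact Nat.le_floor (hz2.trans b3)
  have hw2 : (x : ℝ) ^ (1 / 4 : ℝ) ≤ w := by
    have h7 := Nat.lt_floor_add_one ((x : ℝ) ^ (1 / 3 : ℝ))
    rw [← hw] at h7
    have h8 : (x : ℝ) ^ (1 / 3 : ℝ) = (x : ℝ) ^ (1 / 4 : ℝ) * (x : ℝ) ^ (1 / 12 : ℝ) := by
      rw [← Real.rpow_add hx0]
      norm_num
    have h9 : (1 : ℝ) ≤ (x : ℝ) ^ (1 / 4 : ℝ) := Real.one_le_rpow hx1 (by norm_num)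
    rw [pow_zero, mul_one] at b5
    have h10 : (x : ℝ) ^ (1 / 4 : ℝ) * 2 ≤ (x : ℝ) ^ (1 / 4 : ℝ) * (x : ℝ) ^ (1 / 12 : ℝ) :=
      mul_le_mul_of_nonneg_left b5 (by positivity)
    linarith
  have hlw : L / 4 ≤ Real.log w := by
    have h7 := Real.log_le_log (by positivity) hw2
    rw [Real.log_rpow hx0] at h7
    linarith
  have hwx : w ≤ x := by
    have h7 : (w : ℝ) ≤ x := hw1.trans (by
      calc (x : ℝ) ^ (1 / 3 : ℝ) ≤ (x : ℝ) ^ (1 : ℝ) := Real.rpow_le_rpow_of_exponent_le hx1 (by norm_num)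
        _ = x := Real.rpow_one _)
    exact_mod_cast h7
  have hwsq : 8 * L ^ U * (w : ℝ) ^ 2 ≤ x := by
    have h7 : ((x : ℝ) ^ (1 / 3 : ℝ)) ^ 3 = (x : ℝ) := by
      rw [← Real.rpow_natCast, ← Real.rpow_mul hx0.le]
      norm_num
    have h8 : 8 * L ^ U * (w : ℝ) ^ 2 ≤ (x : ℝ) ^ (1 / 3 : ℝ) * ((x : ℝ) ^ (1 / 3 : ℝ)) ^ 2 :=
      mul_le_mul b2 (pow_le_pow_left₀ (Nat.cast_nonneg _) hw1 2) (by positivity) (by positivity)
    rw [← pow_succ', h7] at h8
    exact h8
  -- sizes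
  have hD1K : L ^ K ≤ D := (hLL (by omega)).trans hD1
  have hD1C : L ^ C1 ≤ D := (hLL (by omega)).trans hD1
  have hD1r : (1 : ℝ) ≤ D := (hLp1 K).trans hD1K
  have hD0 : (0 : ℝ) < D := by linarith
  have hxB : x ≤ B := by
    have h7 : (x : ℝ) * L ^ K ≤ B * L ^ K := by
      calc (x : ℝ) * L ^ K ≤ x * D := mul_le_mul_of_nonneg_left hD1K hx0.le
        _ = D * x := mul_comm _ _
        _ ≤ _ := hDB
    exact_mod_cast le_of_mul_le_mul_right h7 (hLp K)
  have hxBr : (x : ℝ) ≤ B := by exact_mod_cast hxB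
  have hB0 : (0 : ℝ) < B := by linarith
  have hB1 : (1 : ℝ) ≤ B := by linarith
  have hBx : (B : ℝ) ≤ (x : ℝ) ^ (K + 2) := by
    calc (B : ℝ) ≤ D * x * L ^ K := hBD
      _ ≤ (x : ℝ) ^ K * x * x := by gcongr
      _ = _ := by ring
  have hcr : (c : ℝ) ≤ B * x := by exact_mod_cast hcx
  have hc1 : (1 : ℝ) ≤ c := by exact_mod_cast hc
  -- the exceptional sets
  obtain ⟨Bad0, hB0s, hB0c, hB0'⟩ := b1 z hzE1 hz2 D B hD1C hD2 hDB hBD (fun _ => 0) (by intro _; simp) (by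
    intro _ m _
    simp only [Polynomial.eval_zero, abs_zero, Int.cast_zero]
    positivity) (fun _ => (c : ℤ)) (by intro _; omega) (by
      intro _
      have e : (((|(c : ℤ)|) : ℤ) : ℝ) = c := by simp
      rw [e]
      calc (c : ℝ) ≤ B * x := hcr
        _ = B * x * 1 := (mul_one _).symm
        _ ≤ B * x * L ^ K := mul_le_mul_of_nonneg_left (hLp1 K) (by positivity))
  obtain ⟨Bad1, hBad1⟩ : ∃ Bad1, Bad1 = Bad0.image (fun e => e 0) := ⟨_, rfl⟩
  have hB1s : Bad1 ⊆ Icc 1 D ×ˢ Icc 1 B := by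
    intro q hq
    rw [hBad1, mem_image] at hq
    obtain ⟨e, he, rfl⟩ := hq
    exact Fintype.mem_piFinset.1 (hB0s he) 0
  have hB1c : (Bad1.card : ℝ) ≤ D * B / L ^ (U + 4) := by
    rw [pow_one] at hB0c
    refine le_trans ?_ hB0c
    rw [hBad1]
    exact_mod_cast card_image_le
  obtain ⟨Bad2, hBad2⟩ : ∃ Bad2, Bad2 = (Icc 1 D ×ˢ Icc 1 B).filter (fun q : ℕ × ℕ => 1 < |sj q.1 q.2 c z w|) :=
    ⟨_, rfl⟩
  have hB2c := bad_count D B (c : ℤ) z w (by omega)
  rw [← hBad2] at hB2c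
  refine ⟨Bad1 ∪ Bad2, union_subset hB1s (by rw [hBad2]; exact filter_subset _ _), ?_, ?_⟩
  · have h7 : ((Bad1 ∪ Bad2).card : ℝ) ≤ Bad1.card + Bad2.card := by exact_mod_cast card_union_le _ _
    obtain ⟨T, hT⟩ : ∃ T : ℝ, T = D * B / L ^ U := ⟨_, rfl⟩
    have hT0 : 0 < T := by rw [hT]; positivity
    have h8 : (Bad1.card : ℝ) ≤ T / 4 := by
      refine hB1c.trans ?_
      rw [pow_add, hT, div_div]
      apply div_le_div_of_nonneg_left (by positivity) (by positivity)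
      apply mul_le_mul_of_nonneg_left _ (hLp U).le
      have : L ≤ L ^ 4 := le_self_pow₀ hL1 (by norm_num)
      linarith
    have h9 : (D : ℝ) * (2 * (((B + 1 : ℕ) : ℝ) / z)) ≤ T / 4 := by
      have h10 : ((B + 1 : ℕ) : ℝ) ≤ 2 * B := by push_cast; linarith
      have h11 : ((B + 1 : ℕ) : ℝ) / z ≤ 2 * B / L ^ (U + 3) := div_le_div₀ (by positivity) h10 (hLp _) hzU
      have h12 : 2 * (B : ℝ) / L ^ (U + 3) ≤ B / L ^ U / 8 := by
        rw [pow_add, div_div, div_le_div_iff₀ (by positivity) (by positivity)]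
        have h13 : 16 ≤ L ^ 3 := by
          have : L ≤ L ^ 3 := le_self_pow₀ hL1 (by norm_num)
          linarith
        have h14 : 0 ≤ (B : ℝ) * L ^ U := by positivity
        have h15 := mul_le_mul_of_nonneg_left h13 h14
        have h16 : 2 * (B : ℝ) * (L ^ U * 8) = B * L ^ U * 16 := by ring
        rw [h16, ← mul_assoc]
        exact h15
      calc (D : ℝ) * (2 * (((B + 1 : ℕ) : ℝ) / z)) ≤ D * (2 * (B / L ^ U / 8)) := by
            apply mul_le_mul_of_nonneg_left _ hD0.le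
            linarith
        _ = T / 4 := by rw [hT]; ring
    have h10 : (D : ℝ) * (w : ℝ) ^ 2 ≤ T / 8 := by
      have h11 : (w : ℝ) ^ 2 ≤ B / L ^ U / 8 := by
        rw [div_div, le_div_iff₀ (by positivity)]
        have h12 : (w : ℝ) ^ 2 * (L ^ U * 8) = 8 * L ^ U * (w : ℝ) ^ 2 := by ring
        rw [h12]
        exact hwsq.trans hxBr
      calc (D : ℝ) * (w : ℝ) ^ 2 ≤ D * (B / L ^ U / 8) := mul_le_mul_of_nonneg_left h11 hD0.le
        _ = T / 8 := by rw [hT]; ring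
    rw [← hT]
    have h11 : (D : ℝ) * (2 * (((B + 1 : ℕ) : ℝ) / z) + (w : ℝ) ^ 2) =
        D * (2 * (((B + 1 : ℕ) : ℝ) / z)) + D * (w : ℝ) ^ 2 := by ring
    linarith
  · intro a ha b hb hab hpos u v huv hvx hlong
    rw [mem_union, not_or] at hab
    have ha' := mem_Icc.1 ha
    have hb' := mem_Icc.1 hb
    have har : (a : ℝ) ≤ D := by exact_mod_cast ha'.2
    have hbr : (b : ℝ) ≤ B := by exact_mod_cast hb'.2
    have ha1 : (1 : ℝ) ≤ a := by exact_mod_cast ha'.1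
    -- the sum of the symbols
    have hs : -1 ≤ sj a b c z w := by
      have h7 := hab.2
      rw [hBad2, mem_filter, mem_product, not_and] at h7
      have h8 := h7 ⟨ha, hb⟩
      rw [not_lt] at h8
      exact (abs_le.1 h8).1
    have hlogc : Real.log (4 * (a : ℝ) * c) ≤ z := by
      have h7 : ((4 * a * c : ℕ) : ℝ) ≤ (x : ℝ) ^ (4 * K + 8) := by
        push_cast
        calc 4 * (a : ℝ) * c ≤ (x : ℝ) ^ 2 * (x : ℝ) ^ K * ((x : ℝ) ^ (K + 2) * x) := by
              have h8 : (4 : ℝ) ≤ (x : ℝ) ^ 2 := by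
                have h3' : (3 : ℝ) ≤ x := by exact_mod_cast hx3
                exact le_trans (by norm_num) (pow_le_pow_left₀ (by norm_num) h3' 2)
              have h9 : (c : ℝ) ≤ (x : ℝ) ^ (K + 2) * x := hcr.trans (mul_le_mul_of_nonneg_right hBx hx0.le)
              have h10 : (a : ℝ) ≤ (x : ℝ) ^ K := har.trans hD2
              gcongr
          _ = (x : ℝ) ^ (2 * K + 5) := by ring
          _ ≤ _ := pow_le_pow_right₀ hx1 (by omega)
      have h8 := Real.log_le_log (by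
        have : 0 < 4 * a * c := Nat.mul_pos (Nat.mul_pos (by norm_num) (by omega)) (by omega)
        exact_mod_cast this) h7
      rw [Real.log_pow] at h8
      push_cast at h8
      refine h8.trans (le_trans ?_ hz3)
      have h9 : (4 * (K : ℝ) + 8) * L ≤ L * L := mul_le_mul_of_nonneg_right (by linarith) hL0.le
      have h10 : L * L ≤ L ^ 3 := by
        calc L * L = L ^ 2 := (sq L).symm
          _ ≤ L ^ 3 := hLL (by norm_num)
      linarith
    have hcl := cl hpos x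
    have hv := hcomp z w hz3' hzw a b c ha'.1 hc hs hlogc (by
      intro p hp
      have hp' := hp
      rw [Pr_mem] at hp'
      exact (hcl p hp'.2 (by omega)).2.1.le)
    -- the products
    obtain ⟨Vzz, hVzz⟩ : ∃ t, t = VV (Zr a b c) 0 z := ⟨_, rfl⟩
    obtain ⟨Vx, hVx⟩ : ∃ t, t = VV (Zr a b c) 0 x := ⟨_, rfl⟩
    have hlzL : Real.log z ≤ L := by
      apply Real.log_le_log hz0
      exact_mod_cast hzw.trans hwx
    have hlz1 : 1 ≤ Real.log z := by
      have h3 : (3 : ℝ) ≤ z := by exact_mod_cast hz3'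
      have : Real.exp 1 ≤ z := by
        have := Real.exp_one_lt_d9
        linarith
      rw [Real.le_log_iff_exp_le (by linarith)]
      exact this
    have hVz_low : cV / L ^ 6 ≤ Vzz := by
      have h7 := hVl z hzz (Zr a b c) (cl hpos z)
      rw [← hVzz] at h7
      refine le_trans ?_ h7
      apply div_le_div_of_nonneg_left hcV.le (by positivity)
      exact pow_le_pow_left₀ (by linarith) hlzL 6
    have hVzz0 : 0 < Vzz := lt_of_lt_of_le (by positivity) hVz_low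
    have hVxz : Vx ≤ Vzz * (Cc * (Real.log z / Real.log w) ^ 2) := by
      have h7 : Vx ≤ VV (Zr a b c) 0 w := by
        rw [hVx]
        apply Pool.Agent.Y843.HG.VV_anti hwx
        intro p hp
        have hp' := hp
        rw [Pr_mem] at hp'
        exact (hcl p hp'.2 hp'.1.2).2.2
      refine h7.trans ?_
      rw [← VV_split (Zr a b c) (Nat.zero_le z) hzw, ← hVzz]
      exact mul_le_mul_of_nonneg_left hv hVzz0.le
    have hVxz2 : Vx * L ^ 2 ≤ Vzz * (16 * Cc * Real.log z ^ 2) := by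
      have h7 : Real.log z / Real.log w ≤ Real.log z / (L / 4) :=
        div_le_div_of_nonneg_left (by linarith) (by positivity) hlw
      have h7' : 0 ≤ Real.log z / Real.log w := div_nonneg (by linarith) (by linarith)
      have h8 : Vx ≤ Vzz * (Cc * (Real.log z / (L / 4)) ^ 2) :=
        hVxz.trans (mul_le_mul_of_nonneg_left (mul_le_mul_of_nonneg_left (pow_le_pow_left₀ h7' h7 2) hCc.le) hVzz0.le)
      calc Vx * L ^ 2 ≤ Vzz * (Cc * (Real.log z / (L / 4)) ^ 2) * L ^ 2 := mul_le_mul_of_nonneg_right h8 (hLp 2).le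
        _ = _ := by
          field_simp
          norm_num
    obtain ⟨d, hd⟩ : ∃ d, d = ((Vz z)⁻¹) ^ 2 * Vzz := ⟨_, rfl⟩
    have hVz0 := Vz_pos z
    have hVi0 : 0 < (Vz z)⁻¹ := inv_pos.2 hVz0
    have hd0 : 0 < d := by rw [hd]; positivity
    have hdM : Real.log z ^ 2 * Vzz ≤ CM ^ 2 * d := by
      rw [hd]
      have h7 := pow_le_pow_left₀ (by linarith : (0 : ℝ) ≤ Real.log z) (hM z (by omega)) 2
      have h8 := mul_le_mul_of_nonneg_right h7 hVzz0.le
      calc _ ≤ (CM * (Vz z)⁻¹) ^ 2 * Vzz := h8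
        _ = _ := by ring
    -- the count
    obtain ⟨f, hf⟩ : ∃ f : Fin 1 → Polynomial ℤ, f = fun _ => poly 0 a b (c : ℤ) := ⟨_, rfl⟩
    have hfi : ∀ i, f i = poly 0 a b (c : ℤ) := fun i => by rw [hf]
    have h7 := hB0' (fun _ => (a, b)) (by
      rw [Fintype.mem_piFinset]
      intro _
      exact mem_product.2 ⟨ha, hb⟩) (by
      intro h
      apply hab.1
      rw [hBad1, mem_image]
      exact ⟨_, h, rfl⟩) f (fun i => hfi i) (fun i => by rw [hfi i]; exact deg_poly a b c ha'.1) (by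
      intro p hp
      obtain ⟨n, hn⟩ := hpos p hp
      refine ⟨n, ?_⟩
      rw [Fin.prod_univ_one, hfi 0, eval_poly]
      intro h
      apply hn
      exact_mod_cast h) u v huv hvx
    rw [sing_eq a b c z f hfi, ← hVzz, ← hd] at h7
    obtain ⟨N, hN⟩ : ∃ N, N = ((Ioc u v).filter (fun n : ℕ => n.Prime ∧ (a * n ^ 2 + b * n + c).Prime)).card :=
      ⟨_, rfl⟩
    have hNc : Pool.Agent.Y868.TC.Arg.count f u v = N := by
      rw [hN]
      unfold Pool.Agent.Y868.TC.Arg.count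
      congr 1
      apply filter_congr
      intro n _
      constructor
      · rintro ⟨h1, h2⟩
        have h3 := h2 0
        rw [hfi 0, eval_poly, Int.natAbs_natCast] at h3
        exact ⟨h1, h3⟩
      · rintro ⟨h1, h2⟩
        refine ⟨h1, fun i => ?_⟩
        rw [hfi i, eval_poly, Int.natAbs_natCast]
        exact h2
    rw [hNc] at h7
    rw [← hN, ← hVx]
    obtain ⟨Xw, hXw⟩ : ∃ Xw : ℝ, Xw = (v : ℝ) - u := ⟨_, rfl⟩
    rw [← hXw] at hlong ⊢
    have hXw1 : (x : ℝ) / L ^ U ≤ Xw := by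
      rw [div_le_iff₀ (hLp U)]
      exact hlong
    have hXw2 : 8 ≤ Xw := by
      refine le_trans ?_ hXw1
      rw [le_div_iff₀ (hLp U)]
      refine b2.trans ?_
      calc (x : ℝ) ^ (1 / 3 : ℝ) ≤ (x : ℝ) ^ (1 : ℝ) := Real.rpow_le_rpow_of_exponent_le hx1 (by norm_num)
        _ = x := Real.rpow_one _
    have hXw0 : 0 < Xw := by linarith
    have h9 : Xw / (2 * (G * L ^ 2)) ≤ mainSum f u v := by
      unfold Pool.Agent.Y868.TC.Arg.mainSum
      have h10 : (Ioc u v).erase 1 ⊆ (Ioc u v).filter (fun m : ℕ => 2 ≤ m ∧ ∀ i, 2 ≤ |(f i).eval (m : ℤ)|) := by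
        intro m hm
        rw [mem_erase, mem_Ioc] at hm
        rw [mem_filter, mem_Ioc]
        refine ⟨hm.2, by omega, fun i => ?_⟩
        rw [hfi i, eval_poly, Nat.abs_cast]
        have h11 : m ≤ a * m ^ 2 := by
          have h12 : m ≤ m ^ 2 := Nat.le_self_pow (by norm_num) m
          have h13 : m ^ 2 ≤ a * m ^ 2 := Nat.le_mul_of_pos_left _ ha'.1
          omega
        have h12 : 2 ≤ a * m ^ 2 + b * m + c := by omega
        exact_mod_cast h12
      have h11 : ∀ m ∈ (Ioc u v).erase 1, 1 / (G * L ^ 2) ≤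
          1 / Real.log m * ∏ i, 1 / Real.log (((|(f i).eval (m : ℤ)| : ℤ)) : ℝ) := by
        intro m hm
        have hm' := mem_filter.1 (h10 hm)
        rw [mem_Ioc] at hm'
        rw [Fin.prod_univ_one, hfi 0, eval_poly, Nat.abs_cast, one_div_mul_one_div]
        have hmx : (m : ℝ) ≤ x := by exact_mod_cast hm'.1.2.trans hvx
        have hm2 : (2 : ℝ) ≤ m := by exact_mod_cast hm'.2.1
        have hlm : Real.log m ≤ L := Real.log_le_log (by linarith) hmx
        have hlm0 : 0 < Real.log m := Real.log_pos (by linarith)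
        have h11 : ((a * m ^ 2 + b * m + c : ℕ) : ℝ) ≤ (x : ℝ) ^ (3 * K + 5) := by
          push_cast
          have h12 : (a : ℝ) ≤ (x : ℝ) ^ K := har.trans hD2
          have h13 : (b : ℝ) ≤ (x : ℝ) ^ (K + 2) := hbr.trans hBx
          have h14 : (c : ℝ) ≤ (x : ℝ) ^ (K + 2) * x := hcr.trans (mul_le_mul_of_nonneg_right hBx hx0.le)
          have h15 : (3 : ℝ) ≤ (x : ℝ) ^ 2 := by
            have h3' : (3 : ℝ) ≤ x := by exact_mod_cast hx3
            exact le_trans (by norm_num) (pow_le_pow_left₀ (by norm_num) h3' 2)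
          calc (a : ℝ) * (m : ℝ) ^ 2 + b * m + c ≤ (x : ℝ) ^ K * (x : ℝ) ^ 2 + (x : ℝ) ^ (K + 2) * x + (x : ℝ) ^ (K + 2) * x := by
                gcongr
            _ ≤ (x : ℝ) ^ (K + 3) + (x : ℝ) ^ (K + 3) + (x : ℝ) ^ (K + 3) := by
                have h16 : (x : ℝ) ^ K * (x : ℝ) ^ 2 ≤ (x : ℝ) ^ (K + 3) := by
                  rw [← pow_add]
                  exact pow_le_pow_right₀ hx1 (by omega)
                have h17 : (x : ℝ) ^ (K + 2) * x = (x : ℝ) ^ (K + 3) := by ring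
                linarith
            _ = 3 * (x : ℝ) ^ (K + 3) := by ring
            _ ≤ (x : ℝ) ^ 2 * (x : ℝ) ^ (K + 3) := mul_le_mul_of_nonneg_right h15 (by positivity)
            _ = (x : ℝ) ^ (K + 5) := by ring
            _ ≤ _ := pow_le_pow_right₀ hx1 (by omega)
        have hval1 : (1 : ℝ) < ((a * m ^ 2 + b * m + c : ℕ) : ℝ) := by
          have h12 := hm'.2.2 0
          rw [hfi 0, eval_poly, Nat.abs_cast] at h12
          have h13 : 2 ≤ a * m ^ 2 + b * m + c := by exact_mod_cast h12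
          exact_mod_cast (show 1 < a * m ^ 2 + b * m + c by omega)
        have h12 := Real.log_le_log (by linarith) h11
        rw [Real.log_pow] at h12
        have h13 : Real.log ((a * m ^ 2 + b * m + c : ℕ) : ℝ) ≤ G * L := by
          rw [hG]
          push_cast at h12 ⊢
          exact h12
        have h14 : 0 < Real.log ((a * m ^ 2 + b * m + c : ℕ) : ℝ) := Real.log_pos hval1
        have h15 : Real.log m * Real.log ((a * m ^ 2 + b * m + c : ℕ) : ℝ) ≤ G * L ^ 2 := by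
          calc _ ≤ L * (G * L) := mul_le_mul hlm h13 h14.le hL0.le
            _ = _ := by ring
        exact one_div_le_one_div_of_le (mul_pos hlm0 h14) h15
      have h12 : ((Ioc u v).erase 1).card • (1 / (G * L ^ 2)) ≤ ∑ m ∈ (Ioc u v).erase 1,
          1 / Real.log m * ∏ i, 1 / Real.log (((|(f i).eval (m : ℤ)| : ℤ)) : ℝ) := card_nsmul_le_sum _ _ _ h11
      have h13 : ∑ m ∈ (Ioc u v).erase 1, 1 / Real.log m * ∏ i, 1 / Real.log (((|(f i).eval (m : ℤ)| : ℤ)) : ℝ) ≤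
          ∑ m ∈ (Ioc u v).filter (fun m : ℕ => 2 ≤ m ∧ ∀ i, 2 ≤ |(f i).eval (m : ℤ)|),
            1 / Real.log m * ∏ i, 1 / Real.log (((|(f i).eval (m : ℤ)| : ℤ)) : ℝ) := by
        apply sum_le_sum_of_subset_of_nonneg h10
        intro m hm _
        rw [mem_filter] at hm
        have h14 : 0 ≤ Real.log (m : ℝ) := Real.log_natCast_nonneg m
        have h15 : 0 ≤ Real.log (((|(f 0).eval (m : ℤ)| : ℤ)) : ℝ) := by
          apply Real.log_nonneg
          have := hm.2.2 0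
          exact_mod_cast (by omega : (1 : ℤ) ≤ |(f 0).eval (m : ℤ)|)
        rw [Fin.prod_univ_one]
        positivity
      refine le_trans ?_ (h12.trans h13)
      have h14 : (v - u : ℕ) ≤ ((Ioc u v).erase 1).card + 1 := by
        have := pred_card_le_card_erase (s := Ioc u v) (a := 1)
        rw [Nat.card_Ioc] at this
        omega
      have h15 : Xw ≤ ((Ioc u v).erase 1).card + 1 := by
        have h16 : ((v - u : ℕ) : ℝ) ≤ (((Ioc u v).erase 1).card : ℝ) + 1 := by exact_mod_cast h14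
        rw [Nat.cast_sub huv, ← hXw] at h16
        exact h16
      rw [nsmul_eq_mul, mul_one_div, div_le_div_iff₀ (by positivity) (by positivity)]
      have h16 : 0 < G * L ^ 2 := by positivity
      have h17 : Xw ≤ (((Ioc u v).erase 1).card : ℝ) * 2 := by linarith
      calc Xw * (G * L ^ 2) ≤ (((Ioc u v).erase 1).card : ℝ) * 2 * (G * L ^ 2) := mul_le_mul_of_nonneg_right h17 h16.le
        _ = _ := by ring
    have h10 : (x : ℝ) / L ^ (U + 4) ≤ Xw / (4 * (G * L ^ 2)) := by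
      have h11 : (x : ℝ) / L ^ (U + 4) ≤ Xw / L ^ 4 := by
        rw [div_le_div_iff₀ (by positivity) (by positivity), pow_add]
        calc (x : ℝ) * L ^ 4 ≤ Xw * L ^ U * L ^ 4 := mul_le_mul_of_nonneg_right hlong (hLp 4).le
          _ = _ := by ring
      refine h11.trans ?_
      apply div_le_div_of_nonneg_left hXw0.le (by positivity)
      have h12 : 4 * G ≤ L := by rw [hG]; linarith
      calc 4 * (G * L ^ 2) = 4 * G * L ^ 2 := by ring
        _ ≤ L * L ^ 2 := mul_le_mul_of_nonneg_right h12 (hLp 2).le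
        _ = L ^ 3 := by ring
        _ ≤ L ^ 4 := hLL (by norm_num)
    have h11 : d * (Xw / (4 * (G * L ^ 2))) ≤ N := by
      have g1 := (abs_le.1 h7).1
      have g2 := mul_le_mul_of_nonneg_left h9 hd0.le
      have g3 := mul_le_mul_of_nonneg_left h10 hd0.le
      have g4 : d * (x : ℝ) / L ^ (U + 4) = d * ((x : ℝ) / L ^ (U + 4)) := by ring
      have g5 : d * (Xw / (2 * (G * L ^ 2))) = 2 * (d * (Xw / (4 * (G * L ^ 2)))) := by
        field_simp
        norm_num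
      linarith
    have h12 : Xw * (Vx * L ^ 2) ≤ Xw * (16 * Cc * (CM ^ 2 * d)) := by
      apply mul_le_mul_of_nonneg_left _ hXw0.le
      calc Vx * L ^ 2 ≤ Vzz * (16 * Cc * Real.log z ^ 2) := hVxz2
        _ = 16 * Cc * (Real.log z ^ 2 * Vzz) := by ring
        _ ≤ _ := mul_le_mul_of_nonneg_left hdM (by positivity)
    rw [one_div, inv_mul_le_iff₀ (by positivity)]
    have h13 : Xw * Vx * L ^ 2 ≤ CM ^ 2 * (4 * G) * (16 * Cc) * N * L ^ 2 := by
      have h14 : d * Xw ≤ N * (4 * (G * L ^ 2)) := by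
        rw [← mul_div_assoc, div_le_iff₀ (by positivity)] at h11
        exact h11
      calc Xw * Vx * L ^ 2 = Xw * (Vx * L ^ 2) := by ring
        _ ≤ Xw * (16 * Cc * (CM ^ 2 * d)) := h12
        _ = 16 * Cc * CM ^ 2 * (d * Xw) := by ring
        _ ≤ 16 * Cc * CM ^ 2 * (N * (4 * (G * L ^ 2))) := mul_le_mul_of_nonneg_left h14 (by positivity)
        _ = _ := by ring
    exact le_of_mul_le_mul_right h13 (hLp 2)

end Pool.Agent.Y843.AQ.Arg
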