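import Mathlib
import Pool.Agent.H373R2.T7.Sys8

/-! Lemmas of helper871 (Y871.BD: Young, Cov, Fin, Conv; Y871.PT.Nine; Y871.SZ.Main), copied to shorten the
chain of imports. -/

set_option autoImplicit false

namespace Pool.Agent.Y843.AQ
open Finset Polynomial
open Pool.Agent.H373R2.T7

/-- sums over complete residue systems -/
lemma sum_res (p : ℕ) (hp : 0 < p) (f : ℕ → ℝ) (hf : ∀ n, f n = f (n % p)) (s u : ℕ) (hu : Nat.Coprime p u) :
    ∑ m ∈ range p, f (s + u * m) = ∑ m ∈ range p, f m := by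
  have hinj : Set.InjOn (fun m => (s + u * m) % p) (range p : Set ℕ) := by
    intro m hm m' hm' heq
    have hm1 := mem_range.1 (mem_coe.1 hm)
    have hm2 := mem_range.1 (mem_coe.1 hm')
    have h1 : s + u * m ≡ s + u * m' [MOD p] := heq
    have h2 : u * m ≡ u * m' [MOD p] := Nat.ModEq.add_left_cancel' s h1
    have h3 : m ≡ m' [MOD p] := Nat.ModEq.cancel_left_of_coprime hu h2
    have h4 : m % p = m' % p := h3
    rwa [Nat.mod_eq_of_lt hm1, Nat.mod_eq_of_lt hm2] at h4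
  have himg : (range p).image (fun m => (s + u * m) % p) = range p := by
    apply eq_of_subset_of_card_le
    · intro m hm
      rw [mem_image] at hm
      obtain ⟨a, _, rfl⟩ := hm
      exact mem_range.2 (Nat.mod_lt _ hp)
    · rw [card_image_of_injOn hinj]
  calc ∑ m ∈ range p, f (s + u * m) = ∑ m ∈ range p, f ((s + u * m) % p) := sum_congr rfl fun m _ => hf _
    _ = ∑ m ∈ (range p).image (fun m => (s + u * m) % p), f m := by
        rw [sum_image hinj]
    _ = _ := by rw [himg]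

/-- blocks -/
lemma sum_blocks (f : ℕ → ℝ) (d u : ℕ) : ∑ t ∈ range (d * u), f t = ∑ s ∈ range u, ∑ t ∈ range d, f (d * s + t) := by
  induction u with
  | zero => simp
  | succ u ih =>
    rw [Nat.mul_succ, sum_range_add, ih, sum_range_succ]

/-- complete sums of products of periodic functions -/
lemma crt_sum (f : ℕ → ℕ → ℝ) (hper : ∀ p n, f p n = f p (n % p)) (D : Finset ℕ) : (∀ p ∈ D, p.Prime) →
    ∀ q : ℕ, (∏ p ∈ D, p) ∣ q → ∑ b ∈ range q, ∏ p ∈ D, f p b = q * ∏ p ∈ D, ((∑ m ∈ range p, f p m) / p) := by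
  classical
  induction D using Finset.induction_on with
  | empty =>
    intro _ q _
    simp
  | insert p0 D' hp0 ih =>
    intro hD q hq
    have hpr : p0.Prime := hD p0 (mem_insert_self _ _)
    have hD' : ∀ p ∈ D', p.Prime := fun p hp => hD p (mem_insert_of_mem hp)
    rw [prod_insert hp0] at hq
    obtain ⟨w, rfl⟩ := hq
    set d' := ∏ p ∈ D', p with hd'
    have hcop : Nat.Coprime p0 d' := by
      rw [hd']
      apply Nat.Coprime.prod_right
      intro p hp
      exact (Nat.coprime_primes hpr (hD' p hp)).2 (fun h' => hp0 (h' ▸ hp))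
    rw [show p0 * d' * w = d' * (p0 * w) by ring, sum_blocks, sum_comm]
    have key : ∀ t s : ℕ, ∏ p ∈ insert p0 D', f p (d' * s + t) = (∏ p ∈ D', f p t) * f p0 (t + d' * s) := by
      intro t s
      rw [prod_insert hp0, mul_comm]
      congr 1
      · apply prod_congr rfl
        intro p hp
        obtain ⟨v, hv⟩ : (p : ℕ) ∣ d' := dvd_prod_of_mem (fun p => p) hp
        rw [hper p (d' * s + t), hper p t]
        congr 1
        rw [hv, show p * v * s + t = t + p * (v * s) by ring, Nat.add_mul_mod_self_left]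
      · rw [add_comm]
    have h1 : ∀ t : ℕ, ∑ s ∈ range (p0 * w), ∏ p ∈ insert p0 D', f p (d' * s + t) =
        (∏ p ∈ D', f p t) * (w * ∑ m ∈ range p0, f p0 m) := by
      intro t
      rw [sum_congr rfl fun s _ => key t s, ← mul_sum, sum_blocks]
      congr 1
      have h2 : ∀ s' : ℕ, ∑ s ∈ range p0, f p0 (t + d' * (p0 * s' + s)) = ∑ m ∈ range p0, f p0 m := by
        intro s'
        rw [← sum_res p0 hpr.pos (f p0) (hper p0) (t + d' * (p0 * s')) d' hcop]
        apply sum_congr rfl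
        intro s _
        congr 1
        ring
      rw [sum_congr rfl fun s' _ => h2 s', sum_const, card_range, nsmul_eq_mul]
    rw [sum_congr rfl fun t _ => h1 t, ← sum_mul, ih hD' d' (dvd_refl _), prod_insert hp0]
    have hp0r : (p0 : ℝ) ≠ 0 := by exact_mod_cast hpr.ne_zero
    push_cast
    field_simp

/-- all signs positive -/
def s1 (k : ℕ) : Fin k → ℤ := fun _ => 1

/-- the values -/
def vv {r : ℕ} (F : Fin r → ℤ[X]) (k : Fin r → ℕ) (i : Fin r) (n : ℕ) : ℤ := (F i).eval (n : ℤ) + k i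

lemma vl_eq {r : ℕ} (F : Fin r → ℤ[X]) (k : Fin r → ℕ) (i : Fin r) (n : ℕ) : vl F (s1 r) k i n = vv F k i n := by
  unfold vl vv s1
  ring

lemma sysQ_iff {r : ℕ} (F : Fin r → ℤ[X]) (k : Fin r → ℕ) (p n : ℕ) (hp : p.Prime) :
    sysQ F (s1 r) k p n ↔ (p : ℤ) ∣ ∏ i, vv F k i n := by
  have h1 := (Nat.prime_iff_prime_int.1 hp).dvd_finsetProd_iff (S := (univ : Finset (Fin r))) (fun i => vv F k i n)
  rw [h1]
  unfold sysQ
  simp only [vl_eq, mem_univ, true_and]

lemma nuB_eq {r : ℕ} (F : Fin r → ℤ[X]) (k : Fin r → ℕ) (p : ℕ) (hp : p.Prime) :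
    nuB (sysQ F (s1 r) k) p = ((range p).filter (fun n : ℕ => (p : ℤ) ∣ ∏ i, vv F k i n)).card := by
  classical
  unfold nuB
  apply congrArg
  ext n
  simp only [mem_filter]
  rw [sysQ_iff F k p n hp]

/-- the truncation parameter -/
lemma z_ok (B0 E : ℕ) (hE : B0 + 1 ≤ E) : ∃ N : ℕ, ∀ x : ℕ, N ≤ x →
    Real.log x ^ B0 ≤ (⌊Real.log x ^ E⌋₊ : ℝ) ∧ ((⌊Real.log x ^ E⌋₊ : ℕ) : ℝ) ≤ Real.log x ^ E := by
  obtain ⟨N, hN⟩ := ev_L' 2
  refine ⟨N, fun x hx => ?_⟩
  have hL := hN x hx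
  set L := Real.log x with hLd
  have hL1 : 1 ≤ L := by linarith
  refine ⟨?_, Nat.floor_le (by positivity)⟩
  have h1 := Nat.sub_one_lt_floor (L ^ E)
  have h2 : L ^ (B0 + 1) ≤ L ^ E := pow_le_pow_right₀ hL1 hE
  have h3 : 1 ≤ L ^ B0 := one_le_pow₀ hL1
  have h4 : L ^ (B0 + 1) = L * L ^ B0 := by ring
  nlinarith

/-- the arguments with prime values -/
def PP {r : ℕ} (F : Fin r → ℤ[X]) (k : Fin r → ℕ) (x : ℕ) : Finset ℕ :=
  (Icc 1 x).filter (fun n : ℕ => ∀ i, (vv F k i n).toNat.Prime)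

lemma ev_pow (N : ℕ) (K : ℝ) (hK : 0 < K) : ∃ x0 : ℕ, ∀ x : ℕ, x0 ≤ x → K * Real.log x ^ N ≤ (x : ℝ) ^ (1 / 8 : ℝ) := by
  have hev := ((isLittleO_log_rpow_rpow_atTop (N : ℝ) (show (0 : ℝ) < 1 / 8 by norm_num)).bound
    (show (0 : ℝ) < 1 / K by positivity) |> (tendsto_natCast_atTop_atTop (R := ℝ)).eventually)
  obtain ⟨x0, h0⟩ := Filter.eventually_atTop.1 hev
  refine ⟨x0, fun x hx => ?_⟩
  have h := h0 x hx
  have hL : 0 ≤ Real.log (x : ℝ) := Real.log_natCast_nonneg x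
  rw [Real.norm_of_nonneg (by positivity), Real.norm_of_nonneg (by positivity), Real.rpow_natCast] at h
  calc K * Real.log x ^ N ≤ K * (1 / K * (x : ℝ) ^ (1 / 8 : ℝ)) := mul_le_mul_of_nonneg_left h hK.le
    _ = _ := by field_simp

end Pool.Agent.Y843.AQ
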