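import Mathlib
import Pool.Agent.Y843.AQ.SV

/-! The sieve product of good vectors, and few small values. (Copy of helper871's Y871.SZ.Dens.) -/

set_option autoImplicit false

namespace Pool.Agent.Y843.AQ
open Finset Polynomial
open Pool.Agent.H373R2.T7

lemma al_bd (R : ℕ → ℕ → Prop) (p : ℕ) (hp : p.Prime) : 0 ≤ 1 - (nuB R p : ℝ) / p ∧ 1 - (nuB R p : ℝ) / p ≤ 1 := by
  have hp0 : (0 : ℝ) < p := by exact_mod_cast hp.pos
  have h1 : (nuB R p : ℝ) / p ≤ 1 := by rw [div_le_one hp0]; exact_mod_cast nuB_le R p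
  have h2 : 0 ≤ (nuB R p : ℝ) / p := by positivity
  constructor <;> linarith

/-- the truncated constant -/
noncomputable def Sg {r : ℕ} (F : Fin r → ℤ[X]) (z : ℕ) (a : Fin r → ℕ) : ℝ :=
  ((Vz z)⁻¹) ^ r * ∏ p ∈ pz z, (1 - (nuB (sysQ F (s1 r) a) p : ℝ) / p)

lemma Sg_nonneg {r : ℕ} (F : Fin r → ℤ[X]) (z : ℕ) (a : Fin r → ℕ) : 0 ≤ Sg F z a := by
  unfold Sg
  have := Vz_pos z
  apply mul_nonneg (by positivity)
  exact prod_nonneg fun p hp => (al_bd _ p (mem_pz.1 hp).2).1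

lemma pz_eq (z : ℕ) : pz z = Pz 0 z := by
  ext p
  rw [mem_pz, mem_Pz]
  constructor
  · rintro ⟨h1, h2⟩
    have := h2.pos
    refine ⟨⟨this, ?_⟩, h2⟩
    omega
  · rintro ⟨⟨h1, h2⟩, h3⟩
    exact ⟨by omega, h3⟩

lemma Pz_split (z y : ℕ) (h : z ≤ y) (f : ℕ → ℝ) : ∏ p ∈ Pz 0 y, f p = (∏ p ∈ Pz 0 z, f p) * ∏ p ∈ Pz z y, f p := by
  rw [← prod_union]
  · apply prod_congr _ fun _ _ => rfl
    ext p
    rw [mem_union, mem_Pz, mem_Pz, mem_Pz]
    constructor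
    · rintro ⟨⟨h1, h2⟩, h3⟩
      by_cases h4 : p ≤ z
      · exact Or.inl ⟨⟨h1, h4⟩, h3⟩
      · exact Or.inr ⟨⟨by omega, h2⟩, h3⟩
    · rintro (⟨⟨h1, h2⟩, h3⟩ | ⟨⟨h1, h2⟩, h3⟩)
      · exact ⟨⟨h1, by omega⟩, h3⟩
      · exact ⟨⟨by omega, h2⟩, h3⟩
  · rw [disjoint_left]
    intro p h1 h2
    rw [mem_Pz] at h1 h2
    omega

lemma Pz_split' (z y : ℕ) (h : z ≤ y) (f : ℕ → ℝ) : ∑ p ∈ Pz 0 y, f p = (∑ p ∈ Pz 0 z, f p) + ∑ p ∈ Pz z y, f p := by
  rw [← sum_union]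
  · apply sum_congr _ fun _ _ => rfl
    ext p
    rw [mem_union, mem_Pz, mem_Pz, mem_Pz]
    constructor
    · rintro ⟨⟨h1, h2⟩, h3⟩
      by_cases h4 : p ≤ z
      · exact Or.inl ⟨⟨h1, h4⟩, h3⟩
      · exact Or.inr ⟨⟨by omega, h2⟩, h3⟩
    · rintro (⟨⟨h1, h2⟩, h3⟩ | ⟨⟨h1, h2⟩, h3⟩)
      · exact ⟨⟨h1, by omega⟩, h3⟩
      · exact ⟨⟨by omega, h2⟩, h3⟩
  · rw [disjoint_left]
    intro p h1 h2
    rw [mem_Pz] at h1 h2
    omega

lemma exp_prod (P : Finset ℕ) (u : ℕ → ℝ) (h0 : ∀ p ∈ P, u p ≤ 1) : ∏ p ∈ P, (1 - u p) ≤ Real.exp (-∑ p ∈ P, u p) := by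
  rw [← sum_neg_distrib, Real.exp_sum]
  apply prod_le_prod
  · intro p hp
    have := h0 p hp
    linarith
  · intro p _
    have := Real.add_one_le_exp (-u p)
    linarith

/-- the sieve product -/
theorem dens_up {r : ℕ} (F : Fin r → ℤ[X]) : ∃ K : ℝ, 0 < K ∧ ∀ (a : Fin r → ℕ) (z y : ℕ), z ≤ y → 3 ≤ y → Gd F z y a →
    ∏ p ∈ Pz 0 y, (1 - (nuB (sysQ F (s1 r) a) p : ℝ) / p) ≤ K * (Sg F z a / Real.log y ^ r) := by
  obtain ⟨C, hC⟩ := Pool.Agent.Helper256.KM.mertens_inv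
  refine ⟨Real.exp (r + r ^ 2 + r * C), Real.exp_pos _, fun a z y hzy hy h => ?_⟩
  have hyr : (3 : ℝ) ≤ y := by exact_mod_cast hy
  have hly : 1 ≤ Real.log y := by
    rw [Real.le_log_iff_exp_le (by linarith)]
    have := Real.exp_one_lt_d9
    linarith
  have hly0 : 0 < Real.log (y : ℝ) := by linarith
  set ω : ℕ → ℝ := fun p => (nuB (sysQ F (s1 r) a) p : ℝ) / p with hω
  have hω1 : ∀ p : ℕ, p.Prime → ω p ≤ 1 := by
    intro p hp
    have := (al_bd (sysQ F (s1 r) a) p hp).1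
    simp only [hω]
    linarith
  have hM : Real.log (Real.log y) - C ≤ ∑ p ∈ Pz 0 y, (1 : ℝ) / p := by
    have h1 := (abs_le.1 (hC y hy)).1
    have h2 : ∑ p ∈ (Icc 1 y).filter Nat.Prime, (1 : ℝ) / p = ∑ p ∈ Pz 0 y, (1 : ℝ) / p := by
      apply sum_congr _ fun _ _ => rfl
      exact pz_eq y
    rw [h2] at h1
    linarith
  have h1 := root_sum F a z y h
  have h2 := Pz_split' z y hzy (fun p => (1 : ℝ) / p)
  -- the small primes
  have h3 : Vz z ≤ Real.exp (-∑ p ∈ Pz 0 z, (1 : ℝ) / p) := by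
    unfold Vz
    rw [pz_eq]
    apply exp_prod
    intro p hp
    have hp1 := ((mem_Pz 0 z p).1 hp).2.one_lt
    have : (1 : ℝ) ≤ p := by exact_mod_cast hp1.le
    rw [div_le_one (by linarith)]
    exact this
  have hV0 := Vz_pos z
  have h4 : ∏ p ∈ Pz 0 z, (1 - ω p) = Sg F z a * Vz z ^ r := by
    unfold Sg
    rw [pz_eq]
    rw [inv_pow]
    field_simp
    rfl
  have h5 : ∏ p ∈ Pz z y, (1 - ω p) ≤ Real.exp (-∑ p ∈ Pz z y, ω p) :=
    exp_prod _ _ fun p hp => hω1 p ((mem_Pz z y p).1 hp).2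
  have hS0 := Sg_nonneg F z a
  have h5' : 0 ≤ ∏ p ∈ Pz z y, (1 - ω p) := prod_nonneg fun p hp => by
    have := hω1 p ((mem_Pz z y p).1 hp).2
    linarith
  calc ∏ p ∈ Pz 0 y, (1 - ω p) = (Sg F z a * Vz z ^ r) * ∏ p ∈ Pz z y, (1 - ω p) := by
        rw [Pz_split z y hzy, h4]
    _ ≤ (Sg F z a * Real.exp (-∑ p ∈ Pz 0 z, (1 : ℝ) / p) ^ r) * Real.exp (-∑ p ∈ Pz z y, ω p) := by
        apply mul_le_mul _ h5 h5' (by positivity)
        exact mul_le_mul_of_nonneg_left (pow_le_pow_left₀ hV0.le h3 _) hS0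
    _ = Sg F z a * Real.exp (r * (-∑ p ∈ Pz 0 z, (1 : ℝ) / p) + (-∑ p ∈ Pz z y, ω p)) := by
        rw [← Real.exp_nat_mul, mul_assoc, ← Real.exp_add]
    _ ≤ Sg F z a * Real.exp ((r + r ^ 2 + r * C) - r * Real.log (Real.log y)) := by
        apply mul_le_mul_of_nonneg_left _ hS0
        apply Real.exp_le_exp.2
        have hr : (0 : ℝ) ≤ r := Nat.cast_nonneg _
        have h6 : (r : ℝ) * (Real.log (Real.log y) - C) ≤ r * (∑ p ∈ Pz 0 z, (1 : ℝ) / p + ∑ p ∈ Pz z y, (1 : ℝ) / p) := by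
          apply mul_le_mul_of_nonneg_left _ hr
          rw [← h2]
          exact hM
        have h7 : (r : ℝ) * ∑ p ∈ Pz z y, (1 : ℝ) / p - r - r ^ 2 ≤ ∑ p ∈ Pz z y, ω p := h1
        nlinarith
    _ = Real.exp (r + r ^ 2 + r * C) * (Sg F z a / Real.log y ^ r) := by
        rw [Real.exp_sub, Real.exp_nat_mul, Real.exp_log hly0]
        ring

/-- few small values -/
lemma small_vals (f : ℤ[X]) (hf : 1 ≤ f.natDegree) (k x y : ℕ) :
    ((Icc 1 x).filter (fun n : ℕ => 1 ≤ f.eval (n : ℤ) + k ∧ f.eval (n : ℤ) + k ≤ y)).card ≤ f.natDegree * y := by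
  classical
  have h1 : (Icc 1 x).filter (fun n : ℕ => 1 ≤ f.eval (n : ℤ) + k ∧ f.eval (n : ℤ) + k ≤ y) ⊆
      (Icc 1 y).biUnion fun v => (Icc 1 x).filter (fun n : ℕ => f.eval (n : ℤ) + k = v) := by
    intro n hn
    rw [mem_filter] at hn
    obtain ⟨hn1, hn2, hn3⟩ := hn
    rw [mem_biUnion]
    refine ⟨(f.eval (n : ℤ) + k).toNat, ?_, ?_⟩
    · rw [mem_Icc]
      omega
    · rw [mem_filter]
      refine ⟨hn1, ?_⟩
      rw [Int.toNat_of_nonneg (by omega)]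
  refine (card_le_card h1).trans (card_biUnion_le.trans ?_)
  have h2 : ∀ v ∈ Icc 1 y, ((Icc 1 x).filter (fun n : ℕ => f.eval (n : ℤ) + k = v)).card ≤ f.natDegree := by
    intro v _
    set g : ℤ[X] := f + C ((k : ℤ) - v) with hg
    have hgd : g.natDegree = f.natDegree := by rw [hg, natDegree_add_C]
    have hg0 : g ≠ 0 := by
      intro h
      rw [h, natDegree_zero] at hgd
      omega
    have h3 : (((Icc 1 x).filter (fun n : ℕ => f.eval (n : ℤ) + k = v)).image (fun n : ℕ => (n : ℤ))) ⊆ g.roots.toFinset := by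
      intro m hm
      rw [mem_image] at hm
      obtain ⟨n, hn, rfl⟩ := hm
      rw [mem_filter] at hn
      rw [Multiset.mem_toFinset, mem_roots hg0, IsRoot.def, hg, eval_add, eval_C]
      linarith [hn.2]
    calc ((Icc 1 x).filter (fun n : ℕ => f.eval (n : ℤ) + k = v)).card
        = (((Icc 1 x).filter (fun n : ℕ => f.eval (n : ℤ) + k = v)).image (fun n : ℕ => (n : ℤ))).card :=
          (card_image_of_injective _ Nat.cast_injective).symm
      _ ≤ g.roots.toFinset.card := card_le_card h3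
      _ ≤ Multiset.card g.roots := Multiset.toFinset_card_le _
      _ ≤ g.natDegree := card_roots' g
      _ = f.natDegree := hgd
  refine (sum_le_sum h2).trans (le_of_eq ?_)
  rw [sum_const, Nat.card_Icc, Nat.add_sub_cancel, smul_eq_mul, mul_comm]

end Pool.Agent.Y843.AQ
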