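import Pool.Agent.Y843.HS.PartA
import Pool.Agent.Y843.QD.Root
import Pool.Agent.Y843.HG.VGold
import Pool.Agent.W218.HF.QLow
import Pool.Agent.H398R2.BA1

/-! # The products `V` for most quadratic polynomials: comparison of the levels `z` and `w` -/

set_option autoImplicit false

namespace Pool.Agent.Y843.AQ

open Finset
open Pool.Agent.Y843.HS (Pr VV Pr_mem Pr_prime VV_split)
open Pool.Agent.Y843.QD (Zq card_Zq_eq)

/-- the sum of the symbols of the discriminant over the primes of `(z, w]` prime to `4 a c` -/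
noncomputable def sj (a b : ℕ) (c : ℤ) (z w : ℕ) : ℝ :=
  ∑ p ∈ (Pr z w).filter (fun p : ℕ => ¬ (p : ℤ) ∣ 4 * a * c), (jacobiSym ((b : ℤ) ^ 2 - 4 * a * c) p : ℝ) / p

open Classical in
theorem bad_count (D B : ℕ) (c : ℤ) (z w : ℕ) (hz : 2 ≤ z) :
    (((Icc 1 D ×ˢ Icc 1 B).filter (fun q : ℕ × ℕ => 1 < |sj q.1 q.2 c z w|)).card : ℝ) ≤
      D * (2 * ((B + 1 : ℕ) / z) + (w : ℝ) ^ 2) := by
  have e : (((Icc 1 D ×ˢ Icc 1 B).filter (fun q : ℕ × ℕ => 1 < |sj q.1 q.2 c z w|)).card : ℝ) =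
      ∑ a ∈ Icc 1 D, (((Icc 1 B).filter (fun b => 1 < |sj a b c z w|)).card : ℝ) := by
    simp only [card_filter]
    push_cast
    rw [sum_product]
  rw [e]
  have h : ∀ a ∈ Icc 1 D, (((Icc 1 B).filter (fun b => 1 < |sj a b c z w|)).card : ℝ) ≤
      2 * ((B + 1 : ℕ) / z) + (w : ℝ) ^ 2 := by
    intro a _
    have h1 := Pool.Agent.W218.HF.low_count_b (4 * a * c) ((Pr z w).filter (fun p : ℕ => ¬ (p : ℤ) ∣ 4 * a * c))
      z w (B + 1) (by omega) (by
        intro p hp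
        rw [mem_filter, Pr_mem] at hp
        exact ⟨hp.1.2, by omega, hp.1.1.1, hp.1.1.2, hp.2⟩) 1 one_pos
    rw [one_pow, div_one] at h1
    refine le_trans ?_ h1
    have h2 : (Icc 1 B).filter (fun b => 1 < |sj a b c z w|) ⊆ (range (B + 1)).filter (fun b : ℕ =>
        1 < |∑ p ∈ (Pr z w).filter (fun p : ℕ => ¬ (p : ℤ) ∣ 4 * a * c),
          (jacobiSym ((b : ℤ) ^ 2 - 4 * a * c) p : ℝ) / p|) := by
      intro b hb
      rw [mem_filter, mem_Icc] at hb
      rw [mem_filter, mem_range]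
      exact ⟨by omega, hb.2⟩
    exact_mod_cast card_le_card h2
  refine (sum_le_sum h).trans ?_
  rw [sum_const, Nat.card_Icc, nsmul_eq_mul]
  simp

/-- the comparison -/
theorem V_comp : ∃ C : ℝ, 0 < C ∧ ∀ z w : ℕ, 3 ≤ z → z ≤ w → ∀ (a b : ℕ) (c : ℤ), 1 ≤ a → c ≠ 0 →
    -1 ≤ sj a b c z w → Real.log (4 * a * c).natAbs ≤ z →
    (∀ p ∈ Pr z w, (Zq a b c p).card ≤ p) →
    VV (Zq a b c) z w ≤ C * (Real.log z / Real.log w) := by
  obtain ⟨C, hC0, hC⟩ := Pool.Agent.Helper923.HMertens.mertens_ratio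
  refine ⟨Real.exp (C + 3), Real.exp_pos _, ?_⟩
  intro z w hz hzw a b c ha hc hs hlog hcard
  have hz0 : (0 : ℝ) < z := by exact_mod_cast (show 0 < z by omega)
  have hlz : 1 ≤ Real.log z := by
    have h3 : (3 : ℝ) ≤ z := by exact_mod_cast hz
    have : Real.exp 1 ≤ z := by
      have := Real.exp_one_lt_d9
      linarith
    rw [Real.le_log_iff_exp_le (by linarith)]
    exact this
  have hlzw : Real.log z ≤ Real.log w := Real.log_le_log hz0 (by exact_mod_cast hzw)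
  have hlw : 0 < Real.log w := by linarith
  -- the product
  have h1 : VV (Zq a b c) z w ≤ Real.exp (-∑ p ∈ Pr z w, ((Zq a b c p).card : ℝ) / p) := by
    unfold VV
    rw [← sum_neg_distrib, Real.exp_sum]
    apply prod_le_prod
    · intro p hp
      have hp0 : (0 : ℝ) < p := by exact_mod_cast (Pr_prime hp).pos
      rw [sub_nonneg, div_le_one hp0]
      exact_mod_cast hcard p hp
    · intro p _
      have := Real.add_one_le_exp (-(((Zq a b c p).card : ℝ) / p))
      linarith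
  -- the number of the primes dividing `4 a c`
  have hN : (4 * (a : ℤ) * c).natAbs ≠ 0 := by
    rw [Int.natAbs_ne_zero]
    have : (a : ℤ) ≠ 0 := by exact_mod_cast (show a ≠ 0 by omega)
    exact mul_ne_zero (mul_ne_zero (by norm_num) this) hc
  have h2 : ∑ p ∈ (Pr z w).filter (fun p : ℕ => (p : ℤ) ∣ 4 * a * c), (1 : ℝ) / p ≤ 2 := by
    have h3 : ∀ p ∈ (Pr z w).filter (fun p : ℕ => (p : ℤ) ∣ 4 * a * c), (1 : ℝ) / p ≤ 1 / z := by
      intro p hp
      rw [mem_filter, Pr_mem] at hp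
      apply one_div_le_one_div_of_le hz0
      exact_mod_cast hp.1.1.1.le
    refine (sum_le_sum h3).trans ?_
    rw [sum_const, nsmul_eq_mul]
    have h4 : (((Pr z w).filter (fun p : ℕ => (p : ℤ) ∣ 4 * a * c)).card : ℝ) ≤ 2 * z := by
      have h5 : (Pr z w).filter (fun p : ℕ => (p : ℤ) ∣ 4 * a * c) ⊆ (4 * (a : ℤ) * c).natAbs.primeFactors := by
        intro p hp
        rw [mem_filter, Pr_mem] at hp
        rw [Nat.mem_primeFactors]
        exact ⟨hp.1.2, Int.natCast_dvd.1 hp.2, hN⟩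
      have h6 := Pool.Agent.H398R2.BV.omega_le_log (4 * (a : ℤ) * c).natAbs (by omega)
      have h7 : (((Pr z w).filter (fun p : ℕ => (p : ℤ) ∣ 4 * a * c)).card : ℝ) ≤
          (4 * (a : ℤ) * c).natAbs.primeFactors.card := by exact_mod_cast card_le_card h5
      linarith
    calc _ ≤ 2 * (z : ℝ) * (1 / z) := mul_le_mul_of_nonneg_right h4 (by positivity)
      _ = 2 := by field_simp
  -- the sum of the numbers of the roots
  have h3 : ∑ p ∈ Pr z w, (1 : ℝ) / p - 3 ≤ ∑ p ∈ Pr z w, ((Zq a b c p).card : ℝ) / p := by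
    have h4 := sum_filter_add_sum_filter_not (Pr z w) (fun p : ℕ => (p : ℤ) ∣ 4 * a * c) (fun p => (1 : ℝ) / p)
    have h5 := sum_filter_add_sum_filter_not (Pr z w) (fun p : ℕ => (p : ℤ) ∣ 4 * a * c)
      (fun p => ((Zq a b c p).card : ℝ) / p)
    have h6 : 0 ≤ ∑ p ∈ (Pr z w).filter (fun p : ℕ => (p : ℤ) ∣ 4 * a * c), ((Zq a b c p).card : ℝ) / p :=
      sum_nonneg fun p _ => by positivity
    have h7 : ∑ p ∈ (Pr z w).filter (fun p : ℕ => ¬ (p : ℤ) ∣ 4 * a * c), ((Zq a b c p).card : ℝ) / p =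
        ∑ p ∈ (Pr z w).filter (fun p : ℕ => ¬ (p : ℤ) ∣ 4 * a * c), (1 : ℝ) / p + sj a b c z w := by
      unfold sj
      rw [← sum_add_distrib]
      apply sum_congr rfl
      intro p hp
      rw [mem_filter, Pr_mem] at hp
      have h8 : ¬ (p : ℤ) ∣ (a : ℤ) := by
        intro h
        apply hp.2
        exact Dvd.dvd.mul_right (Dvd.dvd.mul_left h 4) c
      have h9 := card_Zq_eq a b c p hp.1.2 (by omega) h8
      have h10 : ((Zq a b c p).card : ℝ) = 1 + (jacobiSym ((b : ℤ) ^ 2 - 4 * a * c) p : ℝ) := by exact_mod_cast h9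
      rw [h10]
      ring
    linarith
  have h4 := (abs_le.1 (hC z w (by omega) hzw)).1
  have h5 : C / Real.log z ≤ C := div_le_self hC0 hlz
  have h6 : ∑ p ∈ Pr z w, (1 : ℝ) / p = ∑ p ∈ (Finset.Ioc z w).filter Nat.Prime, (1 : ℝ) / p := rfl
  rw [h6] at h3
  have h7 : -∑ p ∈ Pr z w, ((Zq a b c p).card : ℝ) / p ≤ C + 3 - Real.log (Real.log w / Real.log z) := by linarith
  refine h1.trans ((Real.exp_le_exp.2 h7).trans (le_of_eq ?_))
  rw [Real.exp_sub, Real.exp_log (by positivity)]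
  field_simp

end Pool.Agent.Y843.AQ
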